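import Pool.Agent.R390.SF.BN2

/-! Differences of semisimple modules of norm one. -/

set_option autoImplicit false

namespace Pool.Agent.N19.GR

open Module

universe u

section
variable (k : Type*) {A : Type*} [Field k] [Ring A] [Algebra k A]

/-- the dimension of the space of homomorphisms -/
noncomputable def hd (A : Type*) [Ring A] [Algebra k A] (M N : Type*) [AddCommGroup M] [Module k M]
    [Module A M] [IsScalarTower k A M] [AddCommGroup N] [Module k N] [Module A N]
    [IsScalarTower k A N] : ℕ := finrank k (M →ₗ[A] N)

variable {M M' N N' : Type*} [AddCommGroup M] [Module k M] [Module A M] [IsScalarTower k A M]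
  [AddCommGroup N] [Module k N] [Module A N] [IsScalarTower k A N]
  [AddCommGroup M'] [Module k M'] [Module A M'] [IsScalarTower k A M']
  [AddCommGroup N'] [Module k N'] [Module A N'] [IsScalarTower k A N']

theorem hd_fin [FiniteDimensional k M] [FiniteDimensional k N] :
    FiniteDimensional k (M →ₗ[A] N) :=
  FiniteDimensional.of_injective (LinearMap.restrictScalarsₗ k A M N k)
    (LinearMap.restrictScalars_injective k)

theorem hd_congr (e : M ≃ₗ[A] M') (f : N ≃ₗ[A] N') : hd k A M N = hd k A M' N' := by
  have h1 : hd k A M N = hd k A M' N := (LinearEquiv.congrLeft N k e).finrank_eq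
  have h2 : hd k A M' N = hd k A M' N' := by
    refine LinearEquiv.finrank_eq (R := k)
      { toFun := fun g => f.toLinearMap.comp g
        invFun := fun g => f.symm.toLinearMap.comp g
        map_add' := fun g g' => by ext; simp
        map_smul' := fun c g => by
          ext x
          change f (c • g x) = c • f (g x)
          exact (f.restrictScalars k).map_smul c _
        left_inv := fun g => by ext; simp
        right_inv := fun g => by ext; simp }
  rw [h1, h2]

theorem hd_prod_right [FiniteDimensional k M] [FiniteDimensional k N] [FiniteDimensional k N'] :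
    hd k A M (N × N') = hd k A M N + hd k A M N' := by
  have := hd_fin k (A := A) (M := M) (N := N)
  have := hd_fin k (A := A) (M := M) (N := N')
  unfold hd
  rw [← Module.finrank_prod]
  exact ((LinearMap.prodEquiv k : ((M →ₗ[A] N) × (M →ₗ[A] N')) ≃ₗ[k] M →ₗ[A] N × N')).symm.finrank_eq

theorem hd_prod_left [FiniteDimensional k M] [FiniteDimensional k M'] [FiniteDimensional k N] :
    hd k A (M × M') N = hd k A M N + hd k A M' N := by
  have := hd_fin k (A := A) (M := M) (N := N)
  have := hd_fin k (A := A) (M := M') (N := N)
  unfold hd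
  rw [← Module.finrank_prod]
  exact ((LinearMap.coprodEquiv k : ((M →ₗ[A] N) × (M' →ₗ[A] N)) ≃ₗ[k] M × M' →ₗ[A] N)).symm.finrank_eq

theorem hd_zero [FiniteDimensional k M] [FiniteDimensional k N] (h : ∀ f : M →ₗ[A] N, f = 0) :
    hd k A M N = 0 := by
  have : Subsingleton (M →ₗ[A] N) := ⟨fun f g => by rw [h f, h g]⟩
  exact Module.finrank_zero_of_subsingleton

theorem hd_pos [FiniteDimensional k M] [Nontrivial M] : 0 < hd k A M M := by
  have := hd_fin k (A := A) (M := M) (N := M)
  have : Nontrivial (M →ₗ[A] M) := by
    refine ⟨LinearMap.id, 0, fun h => ?_⟩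
    obtain ⟨x, hx⟩ := exists_ne (0 : M)
    exact hx (LinearMap.congr_fun h x)
  exact Module.finrank_pos

/-- a semisimple module with one-dimensional endomorphisms is simple -/
theorem simple_of_hd [FiniteDimensional k M] [Nontrivial M] [IsSemisimpleModule A M]
    (h : hd k A M M = 1) : IsSimpleModule A M := by
  rw [isSimpleModule_iff]
  refine ⟨fun p => ?_⟩
  obtain ⟨q, hq⟩ := exists_isCompl p
  set f : M →ₗ[A] M := p.subtype.comp (p.projectionOnto q hq) with hf
  have hfp : ∀ x ∈ p, f x = x := fun x hx =>
    congrArg Subtype.val (Submodule.projectionOnto_apply_left hq ⟨x, hx⟩)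
  have hfq : ∀ x ∈ q, f x = 0 := fun x hx =>
    congrArg Subtype.val ((Submodule.projectionOnto_apply_eq_zero_iff hq).2 hx)
  have hid : (LinearMap.id : M →ₗ[A] M) ≠ 0 := by
    obtain ⟨x, hx⟩ := exists_ne (0 : M)
    exact fun h => hx (LinearMap.congr_fun h x)
  obtain ⟨c, hc⟩ := (finrank_eq_one_iff_of_nonzero' (K := k) (LinearMap.id : M →ₗ[A] M) hid).1 h f
  have hc' : ∀ x, f x = c • x := fun x => (LinearMap.congr_fun hc x).symm
  rcases eq_or_ne c 0 with h0 | h0
  · left
    rw [eq_bot_iff]
    intro x hx
    rw [Submodule.mem_bot, ← hfp x hx, hc', h0, zero_smul]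
  · right
    rw [eq_top_iff]
    intro x _
    obtain ⟨y, z, hy, hz, rfl⟩ := Submodule.codisjoint_iff_exists_add_eq.1 hq.codisjoint x
    have h1 : c • z = 0 := by rw [← hc', hfq z hz]
    rw [(smul_eq_zero.1 h1).resolve_left h0, add_zero]
    exact hy

end

section
variable {k A : Type*} [Field k] [Ring A] [Algebra k A]

theorem fin_sub (k : Type*) {A : Type*} [Field k] [Ring A] [Algebra k A] {M : Type*} [AddCommGroup M]
    [Module k M] [Module A M] [IsScalarTower k A M] [FiniteDimensional k M] (p : Submodule A M) :
    FiniteDimensional k p :=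
  FiniteDimensional.of_injective (p.subtype.restrictScalars k) p.subtype_injective

/-- the decomposition of a module -/
theorem decomp {M : Type*} [AddCommGroup M] [Module A M] {p q : Submodule A M} (h : IsCompl p q) :
    Nonempty (M ≃ₗ[A] p × q) := ⟨(Submodule.prodEquivOfIsCompl p q h).symm⟩

/-- **The norm lemma.** -/
theorem norm_one [CharZero k] : ∀ (d : ℕ) (M N : Type u) [AddCommGroup M] [Module k M]
    [Module A M] [IsScalarTower k A M] [AddCommGroup N] [Module k N] [Module A N]
    [IsScalarTower k A N] [FiniteDimensional k M] [FiniteDimensional k N] [IsSemisimpleModule A M]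
    [IsSemisimpleModule A N], finrank k N ≤ d → finrank k N < finrank k M →
      hd k A M M + hd k A N N = hd k A M N + hd k A N M + 1 →
      ∃ S : Submodule A M, IsSimpleModule A S ∧ Nonempty (M ≃ₗ[A] N × S) := by
  intro d
  induction d with
  | zero =>
    intro M N _ _ _ _ _ _ _ _ _ _ _ _ hd0 hlt hn
    have hN : Subsingleton N := Module.finrank_zero_iff.1 (Nat.le_zero.1 hd0)
    have hM : Nontrivial M := Module.nontrivial_of_finrank_pos (R := k) (lt_of_le_of_lt (Nat.zero_le _) hlt)
    have e1 : hd k A M N = 0 := hd_zero k fun f => by ext x; exact Subsingleton.elim _ _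
    have e2 : hd k A N M = 0 := hd_zero k fun f => by
      ext x; rw [Subsingleton.elim x 0, map_zero, map_zero]
    have e3 : hd k A N N = 0 := hd_zero k fun f => by ext x; exact Subsingleton.elim _ _
    rw [e1, e2, e3] at hn
    have hs := simple_of_hd k (A := A) (M := M) (by omega)
    refine ⟨⊤, IsSimpleModule.congr Submodule.topEquiv, ⟨?_⟩⟩
    exact { toFun := fun x => (0, ⟨x, trivial⟩)
            invFun := fun y => y.2
            map_add' := fun x y => by ext <;> simp
            map_smul' := fun c x => by ext <;> simp
            left_inv := fun x => rfl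
            right_inv := fun y => Prod.ext (Subsingleton.elim _ _) rfl }
  | succ d ih =>
    intro M N _ _ _ _ _ _ _ _ _ _ _ _ hd0 hlt hn
    have hM : Nontrivial M := Module.nontrivial_of_finrank_pos (R := k) (lt_of_le_of_lt (Nat.zero_le _) hlt)
    by_cases hall : ∀ f : M →ₗ[A] N, f = 0
    · have hall' : ∀ f : N →ₗ[A] M, f = 0 := fun f => Pool.Agent.R390.SF.hom_symm hall f
      have e1 : hd k A M N = 0 := hd_zero k hall
      have e2 : hd k A N M = 0 := hd_zero k hall'
      have e3 := hd_pos k (A := A) (M := M)
      have e4 : hd k A N N = 0 := by omega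
      have hN : Subsingleton N := by
        by_contra hcon
        rw [not_subsingleton_iff_nontrivial] at hcon
        have := hd_pos k (A := A) (M := N)
        omega
      exact ih M N (by rw [Module.finrank_zero_of_subsingleton]; exact Nat.zero_le _) hlt hn
    · push Not at hall
      obtain ⟨f, hf⟩ := hall
      have hr : LinearMap.range f ≠ ⊥ := fun h => hf (LinearMap.range_eq_bot.1 h)
      obtain ⟨m, hmle, hm⟩ := (IsSemisimpleModule.eq_bot_or_exists_simple_le
        (LinearMap.range f)).resolve_left hr
      obtain ⟨s, hs⟩ := IsSemisimpleModule.lifting_property (R := A) f.rangeRestrict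
        f.surjective_rangeRestrict (Submodule.inclusion hmle)
      have hsi : Function.Injective s := by
        intro x y hxy
        have h1 := LinearMap.congr_fun hs x
        have h2 := LinearMap.congr_fun hs y
        rw [LinearMap.comp_apply] at h1 h2
        rw [hxy, h2] at h1
        exact (Submodule.inclusion_injective hmle h1).symm
      let U : Submodule A M := LinearMap.range s
      let eU : m ≃ₗ[A] U := LinearEquiv.ofInjective s hsi
      obtain ⟨M', hM'⟩ := exists_isCompl U
      obtain ⟨N', hN'⟩ := exists_isCompl m
      obtain ⟨e1⟩ := decomp hM'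
      obtain ⟨e2⟩ := decomp hN'
      let e3 : M ≃ₗ[A] m × M' := e1.trans (eU.symm.prodCongr (LinearEquiv.refl A M'))
      have f1 : FiniteDimensional k m := fin_sub k m
      have f2 : FiniteDimensional k M' := fin_sub k M'
      have f3 : FiniteDimensional k N' := fin_sub k N'
      have d1 : finrank k M = finrank k m + finrank k M' := by
        rw [(e3.restrictScalars k).finrank_eq, Module.finrank_prod]
      have d2 : finrank k N = finrank k m + finrank k N' := by
        rw [(e2.restrictScalars k).finrank_eq, Module.finrank_prod]
      have hmn : Nontrivial m := IsSimpleModule.nontrivial A m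
      have hmp : 0 < finrank k m := Module.finrank_pos
      have hn' : hd k A M' M' + hd k A N' N' = hd k A M' N' + hd k A N' M' + 1 := by
        rw [hd_congr k e3 e3, hd_congr k e2 e2, hd_congr k e3 e2, hd_congr k e2 e3] at hn
        simp only [hd_prod_left, hd_prod_right] at hn
        omega
      obtain ⟨S', hS', ⟨e4⟩⟩ := ih M' N' (by omega) (by omega) hn'
      have e5 : S' ≃ₗ[A] S'.map M'.subtype := S'.equivMapOfInjective _ M'.subtype_injective
      refine ⟨S'.map M'.subtype, IsSimpleModule.congr e5.symm, ⟨?_⟩⟩
      exact e3.trans (((LinearEquiv.refl A m).prodCongr e4).trans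
        ((LinearEquiv.prodAssoc A m N' S').symm.trans (e2.symm.prodCongr e5)))

end

end Pool.Agent.N19.GR
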