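import Pool.Agent.N19.GR.Mas
import Pool.Agent.N19.GR.Norm

/-! Representations as modules over the group algebra. -/

set_option autoImplicit false

namespace Pool.Agent.N19.GR

open Module Representation

section
variable {k : Type} [Field k] {G : Type} [Group G] {V W : Type} [AddCommGroup V] [Module k V]
  [AddCommGroup W] [Module k W]

/-- no stable subspaces except `0` and the whole space -/
def Irr (σ : Representation k G V) : Prop :=
  Nontrivial V ∧ ∀ U : Submodule k V, (∀ g, ∀ x ∈ U, σ g x ∈ U) → U = ⊥ ∨ U = ⊤

/-- the dimension of the space of intertwining maps -/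
noncomputable def hr (σ : Representation k G V) (τ : Representation k G W) : ℕ :=
  finrank k (IntertwiningMap σ τ)

theorem hd_eq (σ : Representation k G V) (τ : Representation k G W) :
    hd k (MonoidAlgebra k G) σ.asModule τ.asModule = hr σ τ :=
  ((IntertwiningMap.equivLinearMapAsModule σ τ).finrank_eq).symm

theorem ss_iff (σ : Representation k G V) :
    IsSemisimpleModule (MonoidAlgebra k G) σ.asModule ↔ SSR (Set.range σ) := by
  rw [← isSemisimpleRepresentation_iff_isSemisimpleModule_asModule]
  constructor
  · intro h U hU
    obtain ⟨q, hq⟩ := h.exists_isCompl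
      (⟨U, fun g v hv => hU _ ⟨g, rfl⟩ v hv⟩ : Subrepresentation σ)
    refine ⟨q.toSubmodule, ?_, ?_⟩
    · rintro _ ⟨g, rfl⟩ x hx
      exact q.apply_mem_toSubmodule g hx
    · constructor
      · rw [disjoint_iff]
        have := congrArg Subrepresentation.toSubmodule (disjoint_iff.1 hq.disjoint)
        exact this
      · rw [codisjoint_iff]
        have := congrArg Subrepresentation.toSubmodule (codisjoint_iff.1 hq.codisjoint)
        exact this
  · intro h
    refine ⟨fun p => ?_⟩
    obtain ⟨U', hU', hc⟩ := h p.toSubmodule (by
      rintro _ ⟨g, rfl⟩ x hx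
      exact p.apply_mem_toSubmodule g hx)
    refine ⟨⟨U', fun g v hv => hU' _ ⟨g, rfl⟩ v hv⟩, ?_, ?_⟩
    · rw [disjoint_iff]
      apply Subrepresentation.toSubmodule_injective
      exact disjoint_iff.1 hc.disjoint
    · rw [codisjoint_iff]
      apply Subrepresentation.toSubmodule_injective
      exact codisjoint_iff.1 hc.codisjoint

theorem irr_of (σ : Representation k G V) (h : IsSimpleModule (MonoidAlgebra k G) σ.asModule) :
    Irr σ := by
  rw [← irreducible_iff_isSimpleModule_asModule] at h
  have hnt : (⊥ : Subrepresentation σ) ≠ ⊤ := h.1.exists_pair_ne.elim fun a ha => by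
    obtain ⟨b, hab⟩ := ha
    intro hcon
    have h1 : ∀ c : Subrepresentation σ, c = ⊥ := fun c => by
      rw [eq_bot_iff, hcon]; exact le_top
    exact hab ((h1 a).trans (h1 b).symm)
  constructor
  · by_contra hcon
    rw [not_nontrivial_iff_subsingleton] at hcon
    apply hnt
    apply Subrepresentation.toSubmodule_injective
    exact Subsingleton.elim _ _
  · intro U hU
    rcases h.eq_bot_or_eq_top (⟨U, fun g v hv => hU g v hv⟩ : Subrepresentation σ) with h1 | h1
    · left; exact congrArg Subrepresentation.toSubmodule h1
    · right; exact congrArg Subrepresentation.toSubmodule h1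

theorem simple_of (σ : Representation k G V) (h : Irr σ) :
    IsSimpleModule (MonoidAlgebra k G) σ.asModule := by
  rw [← irreducible_iff_isSimpleModule_asModule]
  have := h.1
  refine { exists_pair_ne := ⟨⊥, ⊤, fun hcon => ?_⟩, eq_bot_or_eq_top := fun p => ?_ }
  · have h1 := congrArg Subrepresentation.toSubmodule hcon
    exact bot_ne_top (α := Submodule k V) h1
  · rcases h.2 p.toSubmodule (fun g x hx => p.apply_mem_toSubmodule g hx) with h1 | h1
    · left; exact Subrepresentation.toSubmodule_injective h1
    · right; exact Subrepresentation.toSubmodule_injective h1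

theorem ssr_of_irr (σ : Representation k G V) (h : Irr σ) : SSR (Set.range σ) := by
  intro U hU
  rcases h.2 U (fun g x hx => hU _ ⟨g, rfl⟩ x hx) with h1 | h1
  · exact ⟨⊤, fun _ _ _ _ => trivial, by rw [h1]; exact isCompl_bot_top⟩
  · exact ⟨⊥, fun r _ x hx => by
      rw [Submodule.mem_bot] at hx ⊢
      rw [hx, map_zero], by rw [h1]; exact isCompl_top_bot⟩

open Pool.Agent.R390.SF in
theorem trc_single (σ : Representation k G V) (g : G) (c : k) :
    trc k σ.asModule (MonoidAlgebra.single g c) = c * LinearMap.trace k V (σ g) := by
  unfold trc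
  have h : Algebra.lsmul k k σ.asModule (MonoidAlgebra.single g c) =
      c • (σ.asModuleEquiv.symm.conj (σ g)) := by
    ext x
    simp [LinearEquiv.conj_apply_apply, Representation.single_smul]
    rfl
  rw [h, map_smul, LinearMap.trace_conj', smul_eq_mul]

open Pool.Agent.R390.SF in
theorem trc_eq (σ : Representation k G V) (τ : Representation k G W)
    (h : ∀ g, LinearMap.trace k V (σ g) = LinearMap.trace k W (τ g)) (a : MonoidAlgebra k G) :
    trc k σ.asModule a = trc k τ.asModule a := by
  induction a using MonoidAlgebra.induction_linear with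
  | zero => unfold trc; rw [map_zero, map_zero, map_zero, map_zero]
  | add x y hx hy => unfold trc at hx hy ⊢; rw [map_add, map_add, map_add, map_add, hx, hy]
  | single g c => rw [trc_single, trc_single, h]

/-- equal traces: isomorphic -/
theorem equiv_of_trace [CharZero k] [FiniteDimensional k V] [FiniteDimensional k W]
    (σ : Representation k G V) (τ : Representation k G W) (hσ : SSR (Set.range σ))
    (hτ : SSR (Set.range τ))
    (h : ∀ g, LinearMap.trace k V (σ g) = LinearMap.trace k W (τ g)) :
    Nonempty (σ.asModule ≃ₗ[MonoidAlgebra k G] τ.asModule) := by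
  have h1 := (ss_iff σ).2 hσ
  have h2 := (ss_iff τ).2 hτ
  have f1 : FiniteDimensional k σ.asModule := Module.Finite.equiv σ.asModuleEquiv.symm
  have f2 : FiniteDimensional k τ.asModule := Module.Finite.equiv τ.asModuleEquiv.symm
  exact Pool.Agent.R390.SF.iso_of_trc (k := k) _ σ.asModule τ.asModule rfl (trc_eq σ τ h)

end

end Pool.Agent.N19.GR
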