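import Pool.Agent.N19.GR.Def
import Pool.Agent.N19.BR.AMain
import Pool.Agent.N19.BR.Inv

/-! Fixed points of the absolute Galois group. -/

set_option autoImplicit false

namespace Pool.Agent.N19.GR

open NumberField IsDedekindDomain Polynomial
open Pool.Agent.W401.Cheb (GK IsFrob IsInert)
open Pool.Agent.R433.MD (Ext)
open Pool.Agent.N19.BR (cnt IsRel)

section
variable {K : Type} [Field K] [NumberField K]

theorem findim (F : IntermediateField K (AlgebraicClosure K)) [NumberField F] :
    FiniteDimensional K F :=
  Module.Finite.of_restrictScalars_finite ℚ K F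

theorem isOpen_fix (F : IntermediateField K (AlgebraicClosure K)) [NumberField F] :
    IsOpen (F.fixingSubgroup : Set (GK K)) := by
  have := findim F
  exact IntermediateField.fixingSubgroup_isOpen F

theorem finiteIndex_fix (F : IntermediateField K (AlgebraicClosure K)) [NumberField F] :
    F.fixingSubgroup.FiniteIndex := by
  have h := Subgroup.quotient_finite_of_isOpen F.fixingSubgroup (isOpen_fix F)
  exact Subgroup.finiteIndex_of_finite_quotient

/-- the restriction to `F` -/
noncomputable def rs (F : IntermediateField K (AlgebraicClosure K)) (g : GK K) :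
    F →ₐ[K] AlgebraicClosure K := (g : AlgebraicClosure K →ₐ[K] AlgebraicClosure K).comp F.val

theorem rs_eq_iff (F : IntermediateField K (AlgebraicClosure K)) (g h : GK K) :
    rs F g = rs F h ↔ g⁻¹ * h ∈ F.fixingSubgroup := by
  rw [IntermediateField.mem_fixingSubgroup_iff]
  constructor
  · intro h1 x hx
    have h2 := DFunLike.congr_fun h1 ⟨x, hx⟩
    change g x = h x at h2
    change g.symm (h x) = x
    rw [← h2, g.symm_apply_apply]
  · intro h1
    ext x
    have h2 := h1 x x.2
    change g.symm (h x) = x at h2
    change g x = h x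
    rw [AlgEquiv.symm_apply_eq] at h2
    exact h2.symm

theorem rs_surj (F : IntermediateField K (AlgebraicClosure K)) (τ : F →ₐ[K] AlgebraicClosure K) :
    ∃ g : GK K, rs F g = τ := by
  let φ : AlgebraicClosure K →ₐ[K] AlgebraicClosure K := τ.liftNormal (AlgebraicClosure K)
  have hφ : Function.Bijective φ := Algebra.IsAlgebraic.algHom_bijective φ
  refine ⟨AlgEquiv.ofBijective φ hφ, ?_⟩
  ext x
  exact AlgHom.liftNormal_commutes τ (AlgebraicClosure K) x

/-- the fixed points are the fixed embeddings -/
theorem card_fix (F : IntermediateField K (AlgebraicClosure K)) (g : GK K) :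
    Nat.card {q : GK K ⧸ F.fixingSubgroup // g • q = q} = cnt F g := by
  unfold cnt
  let f : GK K ⧸ F.fixingSubgroup → (F →ₐ[K] AlgebraicClosure K) :=
    Quotient.lift (rs F) fun a b h => by
      rw [rs_eq_iff]
      exact QuotientGroup.leftRel_apply.1 h
  have hf : ∀ a : GK K, f (a : GK K ⧸ F.fixingSubgroup) = rs F a := fun a => rfl
  have hinj : Function.Injective f := by
    intro p q
    induction p using QuotientGroup.induction_on with
    | H a =>
      induction q using QuotientGroup.induction_on with
      | H b =>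
        intro h
        rw [hf, hf, rs_eq_iff] at h
        exact QuotientGroup.eq.2 h
  have hsurj : Function.Surjective f := fun τ => by
    obtain ⟨a, ha⟩ := rs_surj F τ
    exact ⟨a, ha⟩
  refine Nat.card_congr (Equiv.subtypeEquiv (Equiv.ofBijective f ⟨hinj, hsurj⟩) fun q => ?_)
  rw [← hinj.eq_iff]
  induction q using QuotientGroup.induction_on with
  | H a =>
    change f ((g * a : GK K) : GK K ⧸ F.fixingSubgroup) = f (a : GK K ⧸ F.fixingSubgroup) ↔ _
    rw [Equiv.ofBijective_apply, hf, hf]
    constructor
    · intro h x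
      exact DFunLike.congr_fun h x
    · intro h
      ext x
      exact h x

theorem sum_fix {r : ℕ} (F : Fin r → IntermediateField K (AlgebraicClosure K))
    [∀ j, NumberField (F j)] {e : Fin r → ℤ} (h : IsRel K (fun j => (⟨F j⟩ : Ext K)) e 1)
    (g : GK K) :
    ∑ j, e j * (Nat.card {q : GK K ⧸ (F j).fixingSubgroup // g • q = q} : ℤ) = 1 := by
  have h1 := h (AlgebraicClosure K) g
  rw [Nat.cast_one] at h1
  rw [← h1]
  exact Finset.sum_congr rfl fun j _ => by rw [card_fix]

theorem sum_e {r : ℕ} (F : Fin r → IntermediateField K (AlgebraicClosure K))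
    [∀ j, NumberField (F j)] {e : Fin r → ℤ} (h : IsRel K (fun j => (⟨F j⟩ : Ext K)) e 1) :
    ∑ j, e j = 1 := by
  have hne : Nonempty (Fin r) := by
    by_contra hcon
    rw [not_nonempty_iff] at hcon
    have h1 := sum_fix F h 1
    rw [Fintype.sum_empty] at h1
    exact zero_ne_one h1
  let ρ : Representation ℚ Gal(AlgebraicClosure K/K) ℚ := Representation.trivial ℚ _ ℚ
  have h1 : ∀ j, Pool.Agent.N19.BR.inv ρ (F j) = ⊤ := by
    intro j
    rw [eq_top_iff]
    intro v _
    rw [Pool.Agent.N19.BR.mem_inv]
    intro σ _
    rfl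
  have h2 : Representation.invariants ρ = ⊤ := by
    rw [eq_top_iff]
    intro v _
    rw [Representation.mem_invariants]
    intro σ
    rfl
  obtain ⟨-, h3⟩ := Pool.Agent.N19.BR.inv_rel ρ F h (fun i => inferInstance)
  have h4 : ∀ i, Module.finrank ℚ (Pool.Agent.N19.BR.inv ρ (F i)) = 1 := fun i => by
    rw [h1 i, finrank_top, Module.finrank_self]
  rw [h2, finrank_top, Module.finrank_self, Finset.sum_congr rfl fun i _ => by rw [h4 i]] at h3
  simpa using h3.symm

end

end Pool.Agent.N19.GR
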