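import Pool.Agent.N19.BR.ADefs
import Pool.Agent.W401.Cheb.AbsDefs

/-!
# Galois representations attached to systems of Frobenius eigenvalues over extension fields

`K` is a number field and `GK K = Gal(K̄/K)`.  For a number field `F` between `K` and `K̄` the group
`Gal(K̄/F)` is the subgroup `F.fixingSubgroup` of `Gal(K̄/K)`.
-/

set_option autoImplicit false

namespace Pool.Agent.N19.GR.Def

open NumberField IsDedekindDomain Polynomial
open Pool.Agent.W401.Cheb (GK IsFrob IsInert)
open Pool.Agent.N19.BR.TDef (FieldList)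

section
variable {K : Type} [Field K] [NumberField K]

/-- There is a maximal ideal `Q` of the ring of all algebraic integers above the prime `w` of `F` with
`σ x ≡ x ^ q` modulo `Q` for all `x`. -/
def ActsAt (F : IntermediateField K (AlgebraicClosure K)) [NumberField F]
    (w : HeightOneSpectrum (𝓞 F)) (q : ℕ) (σ : GK K) : Prop :=
  ∃ Q : Ideal (𝓞 (AlgebraicClosure K)), Q.IsMaximal ∧
    Q.comap (algebraMap (𝓞 F) (𝓞 (AlgebraicClosure K))) = w.asIdeal ∧
    ∀ x : 𝓞 (AlgebraicClosure K), σ • x - x ^ q ∈ Q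

variable {E : Type} [Field E] {n : ℕ}

/-- The representation is irreducible. -/
def Irreducible {G : Type} [Group G] (ρ : G →* GL (Fin n) E) : Prop :=
  0 < n ∧ ∀ W : Submodule E (Fin n → E),
    (∀ g, ∀ x ∈ W, (ρ g : Matrix (Fin n) (Fin n) E).mulVec x ∈ W) → W = ⊥ ∨ W = ⊤

/-- `ρ` is attached to `α` outside `S`: at a prime `v` of `K` not in `S` it is unramified, and the
characteristic polynomial of the Frobenius elements is `∏ (X - α_l(v))`. -/
def Attached (S : Set (HeightOneSpectrum (𝓞 K))) (α : HeightOneSpectrum (𝓞 K) → Fin n → E)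
    (ρ : GK K →* GL (Fin n) E) : Prop :=
  ∀ v ∉ S, (∀ σ, IsInert v σ → ρ σ = 1) ∧
    ∀ σ, IsFrob v σ → (ρ σ : Matrix (Fin n) (Fin n) E).charpoly = ∏ l, (X - C (α v l))

/-- `ρ` is attached to the base change of `α` to `F` outside the primes above `S`: let `w` be a prime of
`F` above a prime `v` of `K` not in `S`; then `ρ` is unramified at `w`, and if `q_w = q_v ^ f`, the
characteristic polynomial of the Frobenius elements at `w` is `∏ (X - α_l(v) ^ f)`. -/
def AttachedOver (S : Set (HeightOneSpectrum (𝓞 K))) (α : HeightOneSpectrum (𝓞 K) → Fin n → E)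
    (F : IntermediateField K (AlgebraicClosure K)) [NumberField F]
    (ρ : F.fixingSubgroup →* GL (Fin n) E) : Prop :=
  ∀ (w : HeightOneSpectrum (𝓞 F)), ∀ v ∉ S,
    w.asIdeal.comap (algebraMap (𝓞 K) (𝓞 F)) = v.asIdeal →
    (∀ σ : F.fixingSubgroup, ActsAt F w 1 σ → ρ σ = 1) ∧
    ∀ f : ℕ, Ideal.absNorm w.asIdeal = Ideal.absNorm v.asIdeal ^ f →
      ∀ σ : F.fixingSubgroup, ActsAt F w (Ideal.absNorm w.asIdeal) σ →
        (ρ σ : Matrix (Fin n) (Fin n) E).charpoly = ∏ l, (X - C (α v l ^ f))

/-- Let `ρ_j` be continuous irreducible representations over the fields `F_j` of the list, attached to the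
base changes of one system `α` of Frobenius eigenvalues over `K`.  Then there is a continuous
irreducible representation over `K` which is attached to `α`, and its restriction to `Gal(K̄/F_j)` is
isomorphic to `ρ_j` for all `j`.  The coefficients are in any algebraically closed Hausdorff topological
field of characteristic zero. -/
def Patches (Y : FieldList K) : Prop :=
  ∀ (E : Type) [Field E] [CharZero E] [IsAlgClosed E] [TopologicalSpace E] [IsTopologicalRing E]
    [T2Space E] (n : ℕ) (S : Set (HeightOneSpectrum (𝓞 K))), S.Finite →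
    ∀ (α : HeightOneSpectrum (𝓞 K) → Fin n → E) (ρ : ∀ j, (Y.F j).fixingSubgroup →* GL (Fin n) E),
    (∀ j, Continuous (ρ j) ∧ Irreducible (ρ j) ∧ AttachedOver S α (Y.F j) (ρ j)) →
    ∃ ρ₀ : GK K →* GL (Fin n) E, Continuous ρ₀ ∧ Irreducible ρ₀ ∧ Attached S α ρ₀ ∧
      ∀ j, ∃ P : GL (Fin n) E, ∀ σ : (Y.F j).fixingSubgroup, ρ₀ σ = P * ρ j σ * P⁻¹

end

end Pool.Agent.N19.GR.Def
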