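import Pool.Agent.N19.GR.Def

/-! Frobenius elements and inertia groups over extension fields. -/

set_option autoImplicit false

namespace Pool.Agent.N19.GR

open NumberField IsDedekindDomain Polynomial
open Pool.Agent.W401.Cheb (GK IsFrob IsInert)
open Pool.Agent.N19.GR.Def

section
variable {K : Type} [Field K] [NumberField K]

theorem smul_eq_self {F : IntermediateField K (AlgebraicClosure K)} {σ : GK K}
    (hσ : σ ∈ F.fixingSubgroup) (x : 𝓞 F) :
    σ • algebraMap (𝓞 F) (𝓞 (AlgebraicClosure K)) x =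
      algebraMap (𝓞 F) (𝓞 (AlgebraicClosure K)) x := by
  apply RingOfIntegers.ext
  change σ ((x : F) : AlgebraicClosure K) = ((x : F) : AlgebraicClosure K)
  exact (IntermediateField.mem_fixingSubgroup_iff _ _).1 hσ _ (x : F).2

/-- the prime below -/
theorem exists_below (F : IntermediateField K (AlgebraicClosure K)) [NumberField F]
    {v : HeightOneSpectrum (𝓞 K)} {Q : Ideal (𝓞 (AlgebraicClosure K))} (hQ : Q.IsMaximal)
    (hv : Q.comap (algebraMap (𝓞 K) (𝓞 (AlgebraicClosure K))) = v.asIdeal) :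
    ∃ w : HeightOneSpectrum (𝓞 F),
      Q.comap (algebraMap (𝓞 F) (𝓞 (AlgebraicClosure K))) = w.asIdeal ∧
      w.asIdeal.comap (algebraMap (𝓞 K) (𝓞 F)) = v.asIdeal := by
  have h1 : (Q.comap (algebraMap (𝓞 F) (𝓞 (AlgebraicClosure K)))).comap
      (algebraMap (𝓞 K) (𝓞 F)) = v.asIdeal := by
    rw [Ideal.comap_comap, ← hv]
    rfl
  have hp : (Q.comap (algebraMap (𝓞 F) (𝓞 (AlgebraicClosure K)))).IsPrime :=
    Ideal.comap_isPrime _ _
  refine ⟨⟨Q.comap (algebraMap (𝓞 F) (𝓞 (AlgebraicClosure K))), hp, fun h => ?_⟩, rfl, h1⟩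
  apply v.ne_bot
  rw [← h1, h]
  exact Ideal.comap_bot_of_injective _ (RingOfIntegers.algebraMap.injective K F)

/-- the norm of a prime fixed by a Frobenius element -/
theorem norm_eq (F : IntermediateField K (AlgebraicClosure K)) [NumberField F]
    {v : HeightOneSpectrum (𝓞 K)} {w : HeightOneSpectrum (𝓞 F)}
    (hwv : w.asIdeal.comap (algebraMap (𝓞 K) (𝓞 F)) = v.asIdeal)
    (h : ∀ x : 𝓞 F, x - x ^ Ideal.absNorm v.asIdeal ∈ w.asIdeal) :
    Ideal.absNorm w.asIdeal = Ideal.absNorm v.asIdeal := by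
  classical
  have hwm : w.asIdeal.IsMaximal := w.isMaximal
  have hvm : v.asIdeal.IsMaximal := v.isMaximal
  let _ : Field (𝓞 F ⧸ w.asIdeal) := Ideal.Quotient.field _
  have hfw : Finite (𝓞 F ⧸ w.asIdeal) := Ideal.finiteQuotientOfFreeOfNeBot _ w.ne_bot
  have hfv : Finite (𝓞 K ⧸ v.asIdeal) := Ideal.finiteQuotientOfFreeOfNeBot _ v.ne_bot
  have hcw : Ideal.absNorm w.asIdeal = Nat.card (𝓞 F ⧸ w.asIdeal) := rfl
  have hcv : Ideal.absNorm v.asIdeal = Nat.card (𝓞 K ⧸ v.asIdeal) := rfl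
  have hq : 1 < Ideal.absNorm v.asIdeal := by
    rw [hcv]
    exact Finite.one_lt_card
  apply le_antisymm
  · set q := Ideal.absNorm v.asIdeal with hqdef
    have _ : Fintype (𝓞 F ⧸ w.asIdeal) := Fintype.ofFinite _
    have h1 : (X ^ q - X : (𝓞 F ⧸ w.asIdeal)[X]).natDegree = q := by
      exact FiniteField.X_pow_card_sub_X_natDegree_eq _ hq
    have h2 : (Finset.univ : Finset (𝓞 F ⧸ w.asIdeal)).val ⊆
        (X ^ q - X : (𝓞 F ⧸ w.asIdeal)[X]).roots := by
      intro y _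
      rw [Polynomial.mem_roots (FiniteField.X_pow_card_sub_X_ne_zero _ hq), Polynomial.IsRoot]
      obtain ⟨x, rfl⟩ := Ideal.Quotient.mk_surjective y
      have h3 := Ideal.Quotient.eq_zero_iff_mem.2 (h x)
      rw [map_sub, map_pow] at h3
      simp only [eval_sub, eval_pow, eval_X]
      rw [← neg_sub, h3, neg_zero]
    have h3 := Polynomial.card_le_degree_of_subset_roots h2
    rw [h1, Finset.card_univ] at h3
    rw [hcw, Nat.card_eq_fintype_card]
    exact h3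
  · rw [hcw, hcv, ← hwv]
    exact Nat.card_le_card_of_injective _ (Ideal.quotientMap_injective
      (I := w.asIdeal) (f := algebraMap (𝓞 K) (𝓞 F)))

theorem frob_down (F : IntermediateField K (AlgebraicClosure K)) [NumberField F]
    {v : HeightOneSpectrum (𝓞 K)} {σ : GK K} (hσF : σ ∈ F.fixingSubgroup) (hσ : IsFrob v σ) :
    ∃ w : HeightOneSpectrum (𝓞 F), w.asIdeal.comap (algebraMap (𝓞 K) (𝓞 F)) = v.asIdeal ∧
      Ideal.absNorm w.asIdeal = Ideal.absNorm v.asIdeal ∧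
      ActsAt F w (Ideal.absNorm w.asIdeal) σ := by
  obtain ⟨Q, hQ, hQv, hx⟩ := hσ
  obtain ⟨w, h1, h2⟩ := exists_below F hQ hQv
  have h3 : Ideal.absNorm w.asIdeal = Ideal.absNorm v.asIdeal := by
    refine norm_eq F h2 fun x => ?_
    rw [← h1, Ideal.mem_comap, map_sub, map_pow]
    have h4 := hx (algebraMap (𝓞 F) (𝓞 (AlgebraicClosure K)) x)
    rwa [smul_eq_self hσF] at h4
  refine ⟨w, h2, h3, Q, hQ, h1, ?_⟩
  rw [h3]
  exact hx

theorem inert_down (F : IntermediateField K (AlgebraicClosure K)) [NumberField F]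
    {v : HeightOneSpectrum (𝓞 K)} {σ : GK K} (hσ : IsInert v σ) :
    ∃ w : HeightOneSpectrum (𝓞 F), w.asIdeal.comap (algebraMap (𝓞 K) (𝓞 F)) = v.asIdeal ∧
      ActsAt F w 1 σ := by
  obtain ⟨Q, hQ, hQv, hx⟩ := hσ
  obtain ⟨w, h1, h2⟩ := exists_below F hQ hQv
  refine ⟨w, h2, Q, hQ, h1, fun x => ?_⟩
  rw [pow_one]
  exact hx x

theorem conj_ideal {v : HeightOneSpectrum (𝓞 K)} (q : ℕ) {σ : GK K} (x : GK K)
    (hv : ∃ Q : Ideal (𝓞 (AlgebraicClosure K)), Q.IsMaximal ∧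
      Q.comap (algebraMap (𝓞 K) (𝓞 (AlgebraicClosure K))) = v.asIdeal ∧
      ∀ y : 𝓞 (AlgebraicClosure K), σ • y - y ^ q ∈ Q) :
    ∃ Q : Ideal (𝓞 (AlgebraicClosure K)), Q.IsMaximal ∧
      Q.comap (algebraMap (𝓞 K) (𝓞 (AlgebraicClosure K))) = v.asIdeal ∧
      ∀ y : 𝓞 (AlgebraicClosure K), (x * σ * x⁻¹) • y - y ^ q ∈ Q := by
  obtain ⟨Q, hQ, hQv, hσ⟩ := hv
  refine ⟨Q.comap (MulSemiringAction.toRingHom (GK K) (𝓞 (AlgebraicClosure K)) x⁻¹), ?_, ?_,
    fun y => ?_⟩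
  · have : Function.Surjective
        (MulSemiringAction.toRingHom (GK K) (𝓞 (AlgebraicClosure K)) x⁻¹) := by
      intro y
      exact ⟨x • y, by rw [MulSemiringAction.toRingHom_apply, inv_smul_smul]⟩
    exact Ideal.comap_isMaximal_of_surjective _ this
  · rw [← hQv]
    ext y
    rw [Ideal.mem_comap, Ideal.mem_comap, Ideal.mem_comap, MulSemiringAction.toRingHom_apply,
      smul_algebraMap]
  · rw [Ideal.mem_comap, MulSemiringAction.toRingHom_apply, smul_sub, smul_pow', smul_smul]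
    have h2 : x⁻¹ * (x * σ * x⁻¹) = σ * x⁻¹ := by group
    rw [h2, mul_smul]
    exact hσ (x⁻¹ • y)

theorem frob_conj {v : HeightOneSpectrum (𝓞 K)} {σ : GK K} (a : GK K) (h : IsFrob v σ) :
    IsFrob v (a⁻¹ * σ * a) := by
  have := conj_ideal (Ideal.absNorm v.asIdeal) a⁻¹ h
  rwa [inv_inv] at this

theorem inert_conj {v : HeightOneSpectrum (𝓞 K)} {σ : GK K} (a : GK K) (h : IsInert v σ) :
    IsInert v (a⁻¹ * σ * a) := by
  have h1 := conj_ideal (v := v) (σ := σ) 1 a⁻¹ (by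
    obtain ⟨Q, h2, h3, h4⟩ := h
    exact ⟨Q, h2, h3, fun y => by rw [pow_one]; exact h4 y⟩)
  rw [inv_inv] at h1
  obtain ⟨Q, h2, h3, h4⟩ := h1
  exact ⟨Q, h2, h3, fun y => by have := h4 y; rwa [pow_one] at this⟩

end

end Pool.Agent.N19.GR
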