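import Pool.Agent.N19.GR.Brg
import Pool.Agent.N211.BT.Even

/-! Sums of induced representations. -/

set_option autoImplicit false

namespace Pool.Agent.N19.GR

open Module Representation

section
variable {k : Type} [Field k] {V : Type} [AddCommGroup V] [Module k V] {G : Type} [Group G]

/-- extension by zero -/
noncomputable def ext0 {H : Subgroup G} (ρ : Representation k H V) (x : G) : Module.End k V :=
  open scoped Classical in if h : x ∈ H then ρ ⟨x, h⟩ else 0

theorem ext0_of {H : Subgroup G} (ρ : Representation k H V) {x : G} (h : x ∈ H) :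
    ext0 ρ x = ρ ⟨x, h⟩ := dif_pos h

theorem ext0_mul {H : Subgroup G} (ρ : Representation k H V) {x y : G} (hx : x ∈ H) (hy : y ∈ H)
    (v : V) : ext0 ρ (x * y) v = ext0 ρ x (ext0 ρ y v) := by
  rw [ext0_of ρ hx, ext0_of ρ hy, ext0_of ρ (H.mul_mem hx hy)]
  have : (⟨x * y, H.mul_mem hx hy⟩ : H) = ⟨x, hx⟩ * ⟨y, hy⟩ := rfl
  rw [this, map_mul]
  rfl

theorem ext0_one {H : Subgroup G} (ρ : Representation k H V) (v : V) : ext0 ρ 1 v = v := by
  rw [ext0_of ρ H.one_mem]
  have : (⟨1, H.one_mem⟩ : H) = 1 := rfl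
  rw [this, map_one]
  rfl

/-- the cocycle -/
noncomputable def cc (H : Subgroup G) (g : G) (q : G ⧸ H) : G := q.out⁻¹ * g * (g⁻¹ • q).out

theorem cc_mem (H : Subgroup G) (g : G) (q : G ⧸ H) : cc H g q ∈ H := by
  have h1 : ((g * (g⁻¹ • q).out : G) : G ⧸ H) = g • (g⁻¹ • q) := by
    conv_rhs => rw [← QuotientGroup.out_eq' (g⁻¹ • q)]
    rfl
  rw [smul_inv_smul] at h1
  have h2 : ((q.out : G) : G ⧸ H) = ((g * (g⁻¹ • q).out : G) : G ⧸ H) := by
    rw [h1]; exact QuotientGroup.out_eq' q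
  have h3 := QuotientGroup.eq.1 h2
  rw [← mul_assoc] at h3
  exact h3

theorem cc_mul (H : Subgroup G) (g g' : G) (q : G ⧸ H) :
    cc H (g * g') q = cc H g q * cc H g' (g⁻¹ • q) := by
  unfold cc
  rw [mul_inv_rev, mul_smul]
  group

theorem cc_one (H : Subgroup G) (q : G ⧸ H) : cc H 1 q = 1 := by
  unfold cc
  rw [inv_one, one_smul, mul_one, inv_mul_cancel]

variable {X : Type} (H : X → Subgroup G) (ρ : ∀ x, Representation k (H x) V)

/-- the sum of the induced representations -/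
noncomputable def tot : Representation k G ((Σ x, G ⧸ H x) → V) where
  toFun g := LinearMap.pi fun y => (ext0 (ρ y.1) (cc (H y.1) g y.2)) ∘ₗ
    LinearMap.proj (R := k) (φ := fun _ : (Σ x, G ⧸ H x) => V) (⟨y.1, g⁻¹ • y.2⟩ : Σ x, G ⧸ H x)
  map_one' := by
    apply LinearMap.ext
    intro F
    funext y
    change ext0 (ρ y.1) (cc (H y.1) 1 y.2) (F ⟨y.1, (1 : G)⁻¹ • y.2⟩) = F y
    rw [cc_one, ext0_one, inv_one, one_smul]
  map_mul' g g' := by
    apply LinearMap.ext
    intro F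
    funext y
    change ext0 (ρ y.1) (cc (H y.1) (g * g') y.2) (F ⟨y.1, (g * g')⁻¹ • y.2⟩) =
      ext0 (ρ y.1) (cc (H y.1) g y.2) (ext0 (ρ y.1) (cc (H y.1) g' (g⁻¹ • y.2))
        (F ⟨y.1, g'⁻¹ • g⁻¹ • y.2⟩))
    rw [cc_mul, ext0_mul _ (cc_mem _ _ _) (cc_mem _ _ _), mul_inv_rev, mul_smul]

theorem tot_apply (g : G) (F : (Σ x, G ⧸ H x) → V) (x : X) (q : G ⧸ H x) :
    tot H ρ g F ⟨x, q⟩ = ext0 (ρ x) (cc (H x) g q) (F ⟨x, g⁻¹ • q⟩) := rfl

/-- the trace of an operator on functions -/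
theorem trace_pi {Y : Type} [Fintype Y] [DecidableEq Y] [FiniteDimensional k V]
    (f : (Y → V) →ₗ[k] (Y → V)) : LinearMap.trace k _ f = ∑ y, LinearMap.trace k V
      ((LinearMap.proj y) ∘ₗ f ∘ₗ (LinearMap.single k (fun _ : Y => V) y)) := by
  have h1 : f = ∑ y, f ∘ₗ (LinearMap.single k (fun _ : Y => V) y) ∘ₗ (LinearMap.proj y) := by
    apply LinearMap.ext
    intro F
    rw [LinearMap.sum_apply]
    conv_lhs => rw [← LinearMap.sum_single_apply (v := F)]
    rw [map_sum]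
    rfl
  conv_lhs => rw [h1, map_sum]
  refine Finset.sum_congr rfl fun y _ => ?_
  rw [← LinearMap.comp_assoc, LinearMap.trace_comp_comm']

/-- the trace on the sum of induced representations of restrictions of a class function -/
theorem trace_tot [Fintype (Σ x, G ⧸ H x)] [FiniteDimensional k V] (T : G → k)
    (hT : ∀ x (g a : G) (h : a⁻¹ * g * a ∈ H x), LinearMap.trace k V (ρ x ⟨_, h⟩) = T g) (g : G) :
    LinearMap.trace k _ (tot H ρ g) = (Nat.card {y : Σ x, G ⧸ H x // g • y.2 = y.2} : k) * T g := by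
  classical
  rw [trace_pi]
  have h1 : ∀ y : Σ x, G ⧸ H x, LinearMap.trace k V ((LinearMap.proj y) ∘ₗ (tot H ρ g) ∘ₗ
      (LinearMap.single k (fun _ : (Σ x, G ⧸ H x) => V) y)) = if g • y.2 = y.2 then T g else 0 := by
    rintro ⟨x, q⟩
    by_cases h : g • q = q
    · rw [if_pos h]
      have h2 : g⁻¹ • q = q := by rw [inv_smul_eq_iff, h]
      have h3 : cc (H x) g q = q.out⁻¹ * g * q.out := by unfold cc; rw [h2]
      have h4 : q.out⁻¹ * g * q.out ∈ H x := h3 ▸ cc_mem (H x) g q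
      rw [← hT x g q.out h4]
      congr 1
      apply LinearMap.ext
      intro v
      change tot H ρ g (Pi.single (⟨x, q⟩ : Σ x, G ⧸ H x) v) ⟨x, q⟩ = _
      rw [tot_apply, h2, Pi.single_eq_same, h3, ext0_of _ h4]
    · rw [if_neg h]
      have h2 : g⁻¹ • q ≠ q := fun h3 => h (by rw [inv_smul_eq_iff] at h3; exact h3.symm)
      have h0 : ((LinearMap.proj (R := k) (⟨x, q⟩ : Σ x, G ⧸ H x)) ∘ₗ (tot H ρ g) ∘ₗ
          (LinearMap.single k (fun _ : (Σ x, G ⧸ H x) => V) ⟨x, q⟩)) = 0 := by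
        apply LinearMap.ext
        intro v
        change tot H ρ g (Pi.single (⟨x, q⟩ : Σ x, G ⧸ H x) v) ⟨x, q⟩ = 0
        rw [tot_apply, Pi.single_eq_of_ne (by
          intro h5
          exact h2 (eq_of_heq (Sigma.mk.inj h5).2)), map_zero]
      rw [h0, map_zero]
  rw [Finset.sum_congr rfl fun y _ => h1 y, ← Finset.sum_filter, Finset.sum_const, nsmul_eq_mul,
    Nat.card_eq_fintype_card, Fintype.card_subtype]

/-- **Frobenius reciprocity** -/
noncomputable def frob {W : Type} [AddCommGroup W] [Module k W] (σ : Representation k G W) :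
    (∀ x, IntertwiningMap (σ.comp (H x).subtype) (ρ x)) →ₗ[k] IntertwiningMap σ (tot H ρ) where
  toFun ψ :=
    { toLinearMap := LinearMap.pi fun y => (ψ y.1).toLinearMap ∘ₗ σ y.2.out⁻¹
      isIntertwining' := fun g => by
        apply LinearMap.ext
        intro w
        funext y
        obtain ⟨x, q⟩ := y
        change ψ x (σ q.out⁻¹ (σ g w)) = ext0 (ρ x) (cc (H x) g q) (ψ x (σ (g⁻¹ • q).out⁻¹ w))
        rw [ext0_of _ (cc_mem (H x) g q)]
        have h1 := (ψ x).isIntertwining _ _ ⟨_, cc_mem (H x) g q⟩ (σ (g⁻¹ • q).out⁻¹ w)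
        rw [← h1]
        congr 1
        change (σ q.out⁻¹ * σ g) w = (σ (cc (H x) g q) * σ (g⁻¹ • q).out⁻¹) w
        rw [← map_mul, ← map_mul]
        congr 2
        unfold cc
        group }
  map_add' ψ ψ' := rfl
  map_smul' c ψ := rfl

theorem frob_apply {W : Type} [AddCommGroup W] [Module k W] (σ : Representation k G W)
    (ψ : ∀ x, IntertwiningMap (σ.comp (H x).subtype) (ρ x)) (w : W) (x : X) (q : G ⧸ H x) :
    frob H ρ σ ψ w ⟨x, q⟩ = ψ x (σ q.out⁻¹ w) := rfl

theorem frob_bij {W : Type} [AddCommGroup W] [Module k W] (σ : Representation k G W) :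
    Function.Bijective (frob H ρ σ) := by
  have hmul : ∀ (a b : G) (x : W), σ a (σ b x) = σ (a * b) x := fun a b x => by
    rw [map_mul]; rfl
  constructor
  · rw [injective_iff_map_eq_zero]
    intro ψ hψ
    funext x
    apply IntertwiningMap.ext
    apply LinearMap.ext
    intro w
    have h1 : frob H ρ σ ψ (σ ((1 : G) : G ⧸ H x).out w) ⟨x, ((1 : G) : G ⧸ H x)⟩ = 0 := by
      rw [hψ]; rfl
    rw [frob_apply, hmul, inv_mul_cancel, map_one] at h1
    exact h1
  · intro φ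
    have hmem : ∀ x, ((1 : G) : G ⧸ H x).out ∈ H x := fun x => by
      have := QuotientGroup.eq.1 (QuotientGroup.out_eq' ((1 : G) : G ⧸ H x)).symm
      rwa [inv_one, one_mul] at this
    have hint : ∀ (g : G) (w : W) (x : X) (q : G ⧸ H x), φ (σ g w) ⟨x, q⟩ =
        ext0 (ρ x) (cc (H x) g q) (φ w ⟨x, g⁻¹ • q⟩) := fun g w x q => by
      rw [φ.isIntertwining, tot_apply]
    have hfix : ∀ (x : X) (h : H x), (h : G)⁻¹ • ((1 : G) : G ⧸ H x) = ((1 : G) : G ⧸ H x) := by
      intro x h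
      change (((h : G)⁻¹ * 1 : G) : G ⧸ H x) = _
      rw [QuotientGroup.eq]
      simp
    refine ⟨fun x => ⟨(ext0 (ρ x) ((1 : G) : G ⧸ H x).out) ∘ₗ
      (LinearMap.proj (R := k) (φ := fun _ : (Σ x, G ⧸ H x) => V)
        (⟨x, ((1 : G) : G ⧸ H x)⟩ : Σ x, G ⧸ H x)) ∘ₗ φ.toLinearMap, ?_⟩, ?_⟩
    · intro h
      apply LinearMap.ext
      intro w
      change ext0 (ρ x) ((1 : G) : G ⧸ H x).out (φ (σ (h : G) w) ⟨x, ((1 : G) : G ⧸ H x)⟩) =
        ρ x h (ext0 (ρ x) ((1 : G) : G ⧸ H x).out (φ w ⟨x, ((1 : G) : G ⧸ H x)⟩))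
      rw [hint, hfix, ← ext0_mul _ (hmem x) (cc_mem _ _ _)]
      have h2 : ρ x h = ext0 (ρ x) (h : G) := (ext0_of (ρ x) h.2).symm
      rw [h2, ← ext0_mul _ h.2 (hmem x)]
      congr 2
      unfold cc
      rw [hfix]
      group
    · apply IntertwiningMap.ext
      apply LinearMap.ext
      intro w
      funext y
      obtain ⟨x, q⟩ := y
      change ext0 (ρ x) ((1 : G) : G ⧸ H x).out (φ (σ q.out⁻¹ w) ⟨x, ((1 : G) : G ⧸ H x)⟩) =
        φ w ⟨x, q⟩
      have h3 : (q.out⁻¹)⁻¹ • ((1 : G) : G ⧸ H x) = q := by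
        change (((q.out⁻¹)⁻¹ * 1 : G) : G ⧸ H x) = q
        rw [mul_one, inv_inv]
        exact QuotientGroup.out_eq' q
      rw [hint, ← ext0_mul _ (hmem x) (cc_mem _ _ _)]
      have h4 : ((1 : G) : G ⧸ H x).out * cc (H x) q.out⁻¹ ((1 : G) : G ⧸ H x) = 1 := by
        unfold cc
        rw [h3]
        group
      rw [h4, ext0_one, h3]

theorem hr_tot [Fintype X] {W : Type} [AddCommGroup W] [Module k W] [FiniteDimensional k W]
    [FiniteDimensional k V] (σ : Representation k G W) :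
    hr σ (tot H ρ) = ∑ x, hr (σ.comp (H x).subtype) (ρ x) := by
  have hfin : ∀ x, Module.Finite k (IntertwiningMap (σ.comp (H x).subtype) (ρ x)) := by
    intro x
    let f : IntertwiningMap (σ.comp (H x).subtype) (ρ x) →ₗ[k] (W →ₗ[k] V) :=
      { toFun := fun ψ => ψ.toLinearMap
        map_add' := fun _ _ => rfl
        map_smul' := fun _ _ => rfl }
    exact FiniteDimensional.of_injective f (IntertwiningMap.toLinearMap_injective _ _)
  unfold hr
  rw [← (LinearEquiv.ofBijective _ (frob_bij H ρ σ)).finrank_eq, Module.finrank_pi_fintype]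

end

end Pool.Agent.N19.GR
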