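import Pool.Agent.N19.GR.Mat

/-! Patching of Galois representations. -/

set_option autoImplicit false

namespace Pool.Agent.N19.GR

open NumberField IsDedekindDomain Polynomial Topology
open Pool.Agent.W401.Cheb (GK IsFrob IsInert)
open Pool.Agent.N19.GR.Def
open Pool.Agent.N19.BR (IsRel)
open Pool.Agent.R433.MD (Ext)
open Pool.Agent.N19.BR.TDef (FieldList)

section
variable {K : Type} [Field K] [NumberField K] {E : Type} [Field E] {n : ℕ}
  {S : Set (HeightOneSpectrum (𝓞 K))} {α : HeightOneSpectrum (𝓞 K) → Fin n → E}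

theorem charpoly_frob {F : IntermediateField K (AlgebraicClosure K)} [NumberField F]
    {ρ : F.fixingSubgroup →* GL (Fin n) E} (ha : AttachedOver S α F ρ)
    {v : HeightOneSpectrum (𝓞 K)} (hv : v ∉ S) {γ : GK K} (hγ : IsFrob v γ)
    (h : γ ∈ F.fixingSubgroup) :
    (ρ ⟨γ, h⟩ : Matrix (Fin n) (Fin n) E).charpoly = ∏ l, (X - C (α v l)) := by
  obtain ⟨w, h1, h2, h3⟩ := frob_down F h hγ
  have h4 := (ha w v hv h1).2 1 (by rw [pow_one]; exact h2) ⟨γ, h⟩ h3
  simpa only [pow_one] using h4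

theorem one_of_inert {F : IntermediateField K (AlgebraicClosure K)} [NumberField F]
    {ρ : F.fixingSubgroup →* GL (Fin n) E} (ha : AttachedOver S α F ρ)
    {v : HeightOneSpectrum (𝓞 K)} (hv : v ∉ S) {γ : GK K} (hγ : IsInert v γ)
    (h : γ ∈ F.fixingSubgroup) : ρ ⟨γ, h⟩ = 1 := by
  obtain ⟨w, h1, h2⟩ := inert_down F hγ
  exact (ha w v hv h1).1 ⟨γ, h⟩ h2

theorem continuous_conj (a : GK K) : Continuous fun x : GK K => a⁻¹ * x * a := by
  fun_prop

variable [TopologicalSpace E] [IsTopologicalRing E]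

theorem continuous_trace {F : IntermediateField K (AlgebraicClosure K)}
    {ρ : F.fixingSubgroup →* GL (Fin n) E} (hc : Continuous ρ) :
    Continuous fun x => (ρ x : Matrix (Fin n) (Fin n) E).trace :=
  (Units.continuous_val.comp hc).matrix_trace

/-- compatibility, by Chebotarev's theorem -/
theorem compat [T2Space E] (hn : 0 < n) (hS : S.Finite)
    {F F' : IntermediateField K (AlgebraicClosure K)} [NumberField F] [NumberField F']
    {ρ : F.fixingSubgroup →* GL (Fin n) E} {ρ' : F'.fixingSubgroup →* GL (Fin n) E}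
    (hc : Continuous ρ) (hc' : Continuous ρ') (ha : AttachedOver S α F ρ)
    (ha' : AttachedOver S α F' ρ') (g a b : GK K) (h : a⁻¹ * g * a ∈ F.fixingSubgroup)
    (h' : b⁻¹ * g * b ∈ F'.fixingSubgroup) :
    (ρ ⟨_, h⟩ : Matrix (Fin n) (Fin n) E).trace = (ρ' ⟨_, h'⟩ : Matrix (Fin n) (Fin n) E).trace := by
  have hne : Nonempty (Fin n) := ⟨⟨0, hn⟩⟩
  let W : Set (GK K) := {x | a⁻¹ * x * a ∈ F.fixingSubgroup ∧ b⁻¹ * x * b ∈ F'.fixingSubgroup}
  have hW : IsOpen W := ((isOpen_fix F).preimage (continuous_conj a)).inter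
    ((isOpen_fix F').preimage (continuous_conj b))
  let f : W → E := fun x => (ρ ⟨a⁻¹ * x * a, x.2.1⟩ : Matrix (Fin n) (Fin n) E).trace -
    (ρ' ⟨b⁻¹ * x * b, x.2.2⟩ : Matrix (Fin n) (Fin n) E).trace
  have hf : Continuous f := by
    refine Continuous.sub ?_ ?_
    · exact (continuous_trace hc).comp (((continuous_conj a).comp continuous_subtype_val).subtype_mk
        fun x : W => x.2.1)
    · exact (continuous_trace hc').comp (((continuous_conj b).comp continuous_subtype_val).subtype_mk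
        fun x : W => x.2.2)
  by_contra hcon
  have hfg : f ⟨g, h, h'⟩ ≠ 0 := sub_ne_zero.2 hcon
  have hU : IsOpen (Subtype.val '' {x : W | f x ≠ 0}) :=
    hW.isOpenMap_subtype_val _ (isOpen_ne.preimage hf)
  have hV : IsOpen {x : GK K | g * x ∈ Subtype.val '' {x : W | f x ≠ 0}} :=
    hU.preimage (continuous_const.mul continuous_id)
  have h1 : {x : GK K | g * x ∈ Subtype.val '' {x : W | f x ≠ 0}} ∈ 𝓝 (1 : GK K) := by
    refine hV.mem_nhds ?_
    change g * 1 ∈ Subtype.val '' {x : W | f x ≠ 0}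
    rw [mul_one]
    exact ⟨⟨g, h, h'⟩, hfg, rfl⟩
  obtain ⟨M, hM, hMn, hMs⟩ := (krullTopology_mem_nhds_one_iff_of_normal K (AlgebraicClosure K) _).1 h1
  have hMg : IsGalois K M := ⟨⟩
  obtain ⟨v, hv, γ, hγ, hγM⟩ := Pool.Agent.R401.Tr2.exists_frob M.fixingSubgroup
    (IntermediateField.fixingSubgroup_isOpen M) g hS
  obtain ⟨x, hx, hxγ⟩ := hMs hγM
  rw [mul_inv_cancel_left] at hxγ
  apply hx
  obtain ⟨x, hx1, hx2⟩ := x
  change x = γ at hxγ
  subst hxγ
  have e1 := charpoly_frob ha hv (frob_conj a hγ) hx1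
  have e2 := charpoly_frob ha' hv (frob_conj b hγ) hx2
  change (ρ ⟨a⁻¹ * x * a, hx1⟩ : Matrix (Fin n) (Fin n) E).trace -
    (ρ' ⟨b⁻¹ * x * b, hx2⟩ : Matrix (Fin n) (Fin n) E).trace = 0
  rw [Matrix.trace_eq_neg_charpoly_coeff, Matrix.trace_eq_neg_charpoly_coeff, e1, e2, sub_self]

theorem continuous_of {F : IntermediateField K (AlgebraicClosure K)} [NumberField F]
    {ρ : F.fixingSubgroup →* GL (Fin n) E} (hc : Continuous ρ) {ρ₀ : GK K →* GL (Fin n) E}
    {P : GL (Fin n) E} (h : ∀ σ : F.fixingSubgroup, ρ₀ σ = P * ρ σ * P⁻¹) : Continuous ρ₀ := by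
  refine continuous_of_continuousAt_one ρ₀ ?_
  have h1 : Continuous (ρ₀ ∘ (Subtype.val : F.fixingSubgroup → GK K)) := by
    have h2 : (ρ₀ ∘ (Subtype.val : F.fixingSubgroup → GK K)) = fun σ => P * ρ σ * P⁻¹ := funext h
    rw [h2]
    exact (continuous_const.mul hc).mul continuous_const
  have h3 : IsOpenEmbedding (Subtype.val : F.fixingSubgroup → GK K) :=
    (isOpen_fix F).isOpenEmbedding_subtypeVal
  exact (h3.continuousAt_iff (f := (Subtype.val : F.fixingSubgroup → GK K)) (g := ρ₀)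
    (x := (1 : F.fixingSubgroup))).1 h1.continuousAt

end

theorem charpoly_conj {k : Type} [Field k] {n : ℕ} (A B : GL (Fin n) k) :
    ((A * B * A⁻¹ : GL (Fin n) k) : Matrix (Fin n) (Fin n) k).charpoly =
      (B : Matrix (Fin n) (Fin n) k).charpoly := by
  rw [Units.val_mul, Units.val_mul, Matrix.coe_units_inv, Matrix.charpoly_units_conj]

/-- **The patching theorem.** -/
theorem patches_of_rel {K : Type} [Field K] [NumberField K] {Y : FieldList K}
    (h : IsRel K (fun j => (⟨Y.F j⟩ : Ext K)) Y.e 1) : Patches Y := by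
  intro E _ _ _ _ _ _ n S hS α ρ hρ
  have he := sum_e Y.F h
  have hrel := sum_fix Y.F h
  have hr0 : Nonempty (Fin Y.r) := by
    by_contra hcon
    rw [not_nonempty_iff] at hcon
    rw [Fintype.sum_empty] at he
    exact zero_ne_one he
  obtain ⟨j₀⟩ := hr0
  have hn : 0 < n := (hρ j₀).2.1.1
  obtain ⟨ρ₀, hirr, hP⟩ := patch_mat (fun j => (Y.F j).fixingSubgroup) ρ
    (fun j => finiteIndex_fix (Y.F j)) hrel he (fun j => (hρ j).2.1)
    (fun i j g a b h1 h2 => compat hn hS (hρ i).1 (hρ j).1 (hρ i).2.2 (hρ j).2.2 g a b h1 h2)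
  obtain ⟨P₀, hP₀⟩ := hP j₀
  refine ⟨ρ₀, continuous_of (hρ j₀).1 hP₀, hirr, ?_, hP⟩
  -- every element is conjugate to an element of one of the subgroups
  have hex : ∀ g : GK K, ∃ j, ∃ a : GK K, a⁻¹ * g * a ∈ (Y.F j).fixingSubgroup := by
    intro g
    by_contra hcon
    push Not at hcon
    have h1 := hrel g
    rw [Finset.sum_eq_zero fun j _ => ?_] at h1
    · exact zero_ne_one h1
    · have h2 : IsEmpty {q : GK K ⧸ (Y.F j).fixingSubgroup // g • q = q} := by
        refine ⟨fun q => ?_⟩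
        obtain ⟨q, hq⟩ := q
        induction q using QuotientGroup.induction_on with
        | H a =>
          refine hcon j a ?_
          have h3 : ((g * a : GK K) : GK K ⧸ (Y.F j).fixingSubgroup) =
              (a : GK K ⧸ (Y.F j).fixingSubgroup) := hq
          have h4 := QuotientGroup.eq.1 h3.symm
          rwa [← mul_assoc] at h4
      rw [Nat.card_of_isEmpty, Nat.cast_zero, mul_zero]
  have hconj : ∀ g a : GK K, ρ₀ g = ρ₀ a * ρ₀ (a⁻¹ * g * a) * (ρ₀ a)⁻¹ := by
    intro g a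
    rw [map_mul, map_mul, map_inv]
    group
  intro v hv
  refine ⟨fun σ hσ => ?_, fun σ hσ => ?_⟩
  · obtain ⟨j, a, ha⟩ := hex σ
    obtain ⟨P, hP⟩ := hP j
    have h1 := one_of_inert (hρ j).2.2 hv (inert_conj a hσ) ha
    have h2 := hP ⟨_, ha⟩
    rw [h1, mul_one, mul_inv_cancel] at h2
    rw [hconj σ a]
    change ρ₀ (a⁻¹ * σ * a) = 1 at h2
    rw [h2, mul_one, mul_inv_cancel]
  · obtain ⟨j, a, ha⟩ := hex σ
    obtain ⟨P, hP⟩ := hP j
    have h1 := charpoly_frob (hρ j).2.2 hv (frob_conj a hσ) ha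
    have h2 := hP ⟨_, ha⟩
    change ρ₀ (a⁻¹ * σ * a) = _ at h2
    rw [hconj σ a, charpoly_conj, h2, charpoly_conj, h1]

end Pool.Agent.N19.GR
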