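import Pool.Agent.N19.GR.Vir
import Pool.Agent.N19.GR.Frob
import Pool.Agent.N19.GR.Cnt
import Pool.Agent.R401.Tr2

/-! Patching of representations by matrices. -/

set_option autoImplicit false

namespace Pool.Agent.N19.GR

open NumberField IsDedekindDomain Polynomial Topology
open Pool.Agent.W401.Cheb (GK IsFrob IsInert)
open Pool.Agent.N19.GR.Def

section mat
variable {k : Type} [Field k] {n : ℕ} {G : Type} [Group G]

/-- from matrices to operators -/
noncomputable def toRep (ρ : G →* GL (Fin n) k) : Representation k G (Fin n → k) where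
  toFun g := Matrix.toLin' (ρ g : Matrix (Fin n) (Fin n) k)
  map_one' := by rw [map_one, Units.val_one, Matrix.toLin'_one]; rfl
  map_mul' g h := by rw [map_mul, Units.val_mul, Matrix.toLin'_mul]; rfl

theorem toRep_apply (ρ : G →* GL (Fin n) k) (g : G) (x : Fin n → k) :
    toRep ρ g x = (ρ g : Matrix (Fin n) (Fin n) k).mulVec x := Matrix.toLin'_apply _ _

theorem irr_toRep {ρ : G →* GL (Fin n) k} (h : Irreducible ρ) : Irr (toRep ρ) := by
  have : Nonempty (Fin n) := ⟨⟨0, h.1⟩⟩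
  refine ⟨inferInstance, fun U hU => h.2 U fun g x hx => ?_⟩
  rw [← toRep_apply]
  exact hU g x hx

theorem trace_toRep (ρ : G →* GL (Fin n) k) (g : G) :
    LinearMap.trace k _ (toRep ρ g) = (ρ g : Matrix (Fin n) (Fin n) k).trace :=
  Matrix.trace_toLin'_eq _

/-- from operators to matrices -/
noncomputable def ofRep (σ : Representation k G (Fin n → k)) : G →* GL (Fin n) k :=
  (Units.map ((LinearMap.toMatrixAlgEquiv' : Module.End k (Fin n → k) ≃ₐ[k] _) :
    Module.End k (Fin n → k) →* Matrix (Fin n) (Fin n) k)).comp σ.toHomUnits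

theorem ofRep_val (σ : Representation k G (Fin n → k)) (g : G) :
    (ofRep σ g : Matrix (Fin n) (Fin n) k) = LinearMap.toMatrix' (σ g) := rfl

theorem ofRep_mulVec (σ : Representation k G (Fin n → k)) (g : G) (x : Fin n → k) :
    (ofRep σ g : Matrix (Fin n) (Fin n) k).mulVec x = σ g x := by
  rw [ofRep_val, LinearMap.toMatrix'_mulVec]

theorem irr_ofRep {σ : Representation k G (Fin n → k)} (hn : 0 < n) (h : Irr σ) :
    Irreducible (ofRep σ) := by
  refine ⟨hn, fun W hW => h.2 W fun g x hx => ?_⟩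
  rw [← ofRep_mulVec]
  exact hW g x hx

/-- the matrix of an isomorphism -/
noncomputable def mt (φ : (Fin n → k) ≃ₗ[k] (Fin n → k)) : GL (Fin n) k :=
  ⟨LinearMap.toMatrix' φ.symm.toLinearMap, LinearMap.toMatrix' φ.toLinearMap, by
    rw [← LinearMap.toMatrix'_comp]; simp, by rw [← LinearMap.toMatrix'_comp]; simp⟩

theorem conj_of (φ : (Fin n → k) ≃ₗ[k] (Fin n → k)) (A B : GL (Fin n) k)
    (h : ∀ x, φ ((A : Matrix (Fin n) (Fin n) k).mulVec x) =
      (B : Matrix (Fin n) (Fin n) k).mulVec (φ x)) : A = mt φ * B * (mt φ)⁻¹ := by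
  rw [eq_mul_inv_iff_mul_eq]
  apply Units.ext
  rw [Units.val_mul, Units.val_mul]
  apply Matrix.toLin'.injective
  apply LinearMap.ext
  intro x
  rw [Matrix.toLin'_mul, Matrix.toLin'_mul]
  change Matrix.toLin' (A : Matrix (Fin n) (Fin n) k)
    (Matrix.toLin' (LinearMap.toMatrix' φ.symm.toLinearMap) x) =
    Matrix.toLin' (LinearMap.toMatrix' φ.symm.toLinearMap)
      (Matrix.toLin' (B : Matrix (Fin n) (Fin n) k) x)
  rw [Matrix.toLin'_toMatrix', Matrix.toLin'_apply, Matrix.toLin'_apply]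
  change (A : Matrix (Fin n) (Fin n) k).mulVec (φ.symm x) =
    φ.symm ((B : Matrix (Fin n) (Fin n) k).mulVec x)
  rw [LinearEquiv.eq_symm_apply, h, φ.apply_symm_apply]

/-- **Patching.** -/
theorem patch_mat [CharZero k] [IsAlgClosed k] {r : ℕ} (H : Fin r → Subgroup G)
    (ρ : ∀ j, H j →* GL (Fin n) k) {e : Fin r → ℤ} (hfin : ∀ j, (H j).FiniteIndex)
    (hrel : ∀ g : G, ∑ j, e j * (Nat.card {q : G ⧸ H j // g • q = q} : ℤ) = 1)
    (he : ∑ j, e j = 1) (hirr : ∀ j, Irreducible (ρ j))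
    (hT : ∀ i j (g a b : G) (h : a⁻¹ * g * a ∈ H i) (h' : b⁻¹ * g * b ∈ H j),
      (ρ i ⟨_, h⟩ : Matrix (Fin n) (Fin n) k).trace = (ρ j ⟨_, h'⟩ : Matrix (Fin n) (Fin n) k).trace) :
    ∃ ρ₀ : G →* GL (Fin n) k, Irreducible ρ₀ ∧
      ∀ j, ∃ P : GL (Fin n) k, ∀ h : H j, ρ₀ h = P * ρ j h * P⁻¹ := by
  classical
  have hr0 : Nonempty (Fin r) := by
    by_contra hcon
    rw [not_nonempty_iff] at hcon
    rw [Fintype.sum_empty] at he
    exact zero_ne_one he
  obtain ⟨j₀⟩ := hr0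
  let T : G → k := fun g => if h : ∃ (j : Fin r) (a : G), a⁻¹ * g * a ∈ H j then
    (ρ h.choose ⟨_, h.choose_spec.choose_spec⟩ : Matrix (Fin n) (Fin n) k).trace else 0
  obtain ⟨σ, hσ, hφ⟩ := patch (k := k) H (fun j => toRep (ρ j)) hfin hrel he
    (fun j => irr_toRep (hirr j)) T (by
      intro j g a h
      rw [trace_toRep]
      have hex : ∃ (j : Fin r) (a : G), a⁻¹ * g * a ∈ H j := ⟨j, a, h⟩
      change _ = T g
      simp only [T, dif_pos hex]
      exact hT _ _ _ _ _ _ _)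
  refine ⟨ofRep σ, irr_ofRep (hirr j₀).1 hσ, fun j => ?_⟩
  obtain ⟨φ, hφ⟩ := hφ j
  refine ⟨mt φ, fun h => conj_of φ _ _ fun x => ?_⟩
  rw [ofRep_mulVec, hφ, toRep_apply]

end mat

end Pool.Agent.N19.GR
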