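import Pool.Agent.N19.GR.Ind

/-! Sums of representations induced from irreducible representations are semisimple. -/

set_option autoImplicit false

namespace Pool.Agent.N19.GR

open Module Representation
open Pool.Agent.N211.BT (SSOn Stab ssum)

section
variable {k : Type} [Field k] {V : Type} [AddCommGroup V] [Module k V] {G : Type} [Group G]

theorem ss_sub [FiniteDimensional k V] (σ : Representation k G V) (h : SSR (Set.range σ))
    (N : Subgroup G) [hN : N.Normal] : SSR (σ '' (N : Set G)) := by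
  refine cliff G V σ _ h ?_ ?_
  · rintro g _ ⟨n, hn, rfl⟩
    exact ⟨g * n * g⁻¹, hN.conj_mem n hn g, by rw [map_mul, map_mul]⟩
  · rintro U hU _ ⟨n, hn, rfl⟩ x hx
    exact hU n x hx

variable {X : Type} (H : X → Subgroup G) (ρ : ∀ x, Representation k (H x) V)
  (N : Subgroup G) [hN : N.Normal] (hle : ∀ x, N ≤ H x)

include hN hle

theorem smul_eq {x : X} {n : G} (hn : n ∈ N) (q : G ⧸ H x) : n⁻¹ • q = q := by
  have h1 : q = ((q.out : G) : G ⧸ H x) := (QuotientGroup.out_eq' q).symm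
  conv_lhs => rw [h1]
  conv_rhs => rw [h1]
  change ((n⁻¹ * q.out : G) : G ⧸ H x) = _
  rw [QuotientGroup.eq]
  apply hle x
  have h2 : (n⁻¹ * q.out)⁻¹ * q.out = q.out⁻¹ * n * q.out⁻¹⁻¹ := by group
  rw [h2]
  exact hN.conj_mem n hn _

open scoped Classical in
theorem tot_single {n : G} (hn : n ∈ N) (y : Σ x, G ⧸ H x) (v : V) :
    tot H ρ n (Pi.single y v) =
      Pi.single y (ext0 (ρ y.1) (y.2.out⁻¹ * n * y.2.out) v) := by
  funext y'
  obtain ⟨x', q'⟩ := y'
  rw [tot_apply, smul_eq H N hle hn q']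
  by_cases h : (⟨x', q'⟩ : Σ x, G ⧸ H x) = y
  · subst h
    rw [Pi.single_eq_same, Pi.single_eq_same]
    unfold cc
    rw [smul_eq H N hle hn q']
  · rw [Pi.single_eq_of_ne h, Pi.single_eq_of_ne h, map_zero]

open scoped Classical in
theorem ss_tot_N [Finite (Σ x, G ⧸ H x)] [FiniteDimensional k V]
    (hss : ∀ x, SSR (Set.range (ρ x))) : SSR (tot H ρ '' (N : Set G)) := by
  have : Fintype (Σ x, G ⧸ H x) := Fintype.ofFinite _
  have key : SSOn (tot H ρ '' (N : Set G))
      (⨆ y, LinearMap.range (LinearMap.single k (fun _ : (Σ x, G ⧸ H x) => V) y)) := by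
    refine ssum k _ (tot H ρ '' (N : Set G)) (Σ x, G ⧸ H x)
      (fun y => LinearMap.range (LinearMap.single k (fun _ : (Σ x, G ⧸ H x) => V) y)) ?_ ?_
    · rintro y _ ⟨n, hn, rfl⟩ _ ⟨v, rfl⟩
      exact ⟨_, (tot_single H ρ N hle hn y v).symm⟩
    · intro y U hU hst
      set s := LinearMap.single k (fun _ : (Σ x, G ⧸ H x) => V) y with hs
      obtain ⟨W, hW, hc⟩ := ss_sub (ρ y.1) (hss y.1) (N.subgroupOf (H y.1)) (U.comap s) (by
        rintro _ ⟨h, hh, rfl⟩ v hv
        have hh' : (h : G) ∈ N := hh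
        have hn : y.2.out * (h : G) * y.2.out⁻¹ ∈ N := hN.conj_mem _ hh' _
        have h1 := hst _ ⟨_, hn, rfl⟩ (s v) hv
        change tot H ρ _ (Pi.single y v) ∈ U at h1
        rw [tot_single H ρ N hle hn] at h1
        have h2 : y.2.out⁻¹ * (y.2.out * (h : G) * y.2.out⁻¹) * y.2.out = h := by group
        rw [h2, ext0_of _ h.2] at h1
        exact h1)
      refine ⟨W.map s, ?_, ?_, ?_, ?_⟩
      · rintro _ ⟨v, -, rfl⟩
        exact ⟨v, rfl⟩
      · rintro _ ⟨n, hn, rfl⟩ _ ⟨v, hv, rfl⟩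
        have hn' : y.2.out⁻¹ * n * y.2.out ∈ N := by
          have := hN.conj_mem _ hn y.2.out⁻¹
          rwa [inv_inv] at this
        refine ⟨ext0 (ρ y.1) (y.2.out⁻¹ * n * y.2.out) v, ?_, (tot_single H ρ N hle hn y v).symm⟩
        rw [ext0_of _ (hle _ hn')]
        exact hW _ ⟨⟨_, hle _ hn'⟩, hn', rfl⟩ v hv
      · rw [eq_bot_iff]
        rintro _ ⟨h1, v, hv, rfl⟩
        have h2 := Submodule.disjoint_def.1 hc.disjoint v h1 hv
        rw [h2, map_zero]
        exact Submodule.zero_mem _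
      · apply le_antisymm
        · refine sup_le hU ?_
          rintro _ ⟨v, -, rfl⟩
          exact ⟨v, rfl⟩
        · rintro _ ⟨v, rfl⟩
          obtain ⟨a, b, ha, hb, rfl⟩ := Submodule.codisjoint_iff_exists_add_eq.1 hc.codisjoint v
          rw [map_add]
          exact Submodule.add_mem_sup ha ⟨b, hb, rfl⟩
  rw [LinearMap.iSup_range_single] at key
  intro U hU
  obtain ⟨U', -, h1, h2, h3⟩ := key U le_top hU
  exact ⟨U', h1, disjoint_iff.2 h2, codisjoint_iff.2 h3⟩

theorem ss_tot_sub [CharZero k] [Finite (Σ x, G ⧸ H x)] [FiniteDimensional k V]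
    (hss : ∀ x, SSR (Set.range (ρ x))) (hNf : N.FiniteIndex) (D : Subgroup G) (hD : N ≤ D) :
    SSR (Set.range ((tot H ρ).comp D.subtype : Representation k D _)) := by
  refine rel D _ ((tot H ρ).comp D.subtype) (N.subgroupOf D) ?_ ?_
  · infer_instance
  · have h1 := ss_tot_N H ρ N hle hss
    have h2 : ((tot H ρ).comp D.subtype) '' (N.subgroupOf D : Set D) = tot H ρ '' (N : Set G) := by
      ext r
      constructor
      · rintro ⟨d, hd, rfl⟩
        exact ⟨d, hd, rfl⟩
      · rintro ⟨n, hn, rfl⟩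
        exact ⟨⟨n, hD hn⟩, hn, rfl⟩
    rw [h2]
    exact h1

theorem ss_tot [CharZero k] [Finite (Σ x, G ⧸ H x)] [FiniteDimensional k V]
    (hss : ∀ x, SSR (Set.range (ρ x))) (hNf : N.FiniteIndex) : SSR (Set.range (tot H ρ)) :=
  rel G _ (tot H ρ) N hNf (ss_tot_N H ρ N hle hss)

end

end Pool.Agent.N19.GR
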