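import Pool.Agent.N19.GR.TotSS

/-! Patching of irreducible representations of subgroups along a relation. -/

set_option autoImplicit false

namespace Pool.Agent.N19.GR

open Module Representation
open Pool.Agent.R390.SF (trc trc_congr trc_prod)

/-- a product of semisimple modules is semisimple -/
theorem ss_prod {A M N : Type*} [Ring A] [AddCommGroup M] [Module A M] [AddCommGroup N] [Module A N]
    [IsSemisimpleModule A M] [IsSemisimpleModule A N] : IsSemisimpleModule A (M × N) := by
  have h1 : IsSemisimpleModule A (LinearMap.range (LinearMap.inl A M N)) :=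
    IsSemisimpleModule.congr (LinearEquiv.ofInjective (LinearMap.inl A M N)
      LinearMap.inl_injective).symm
  have h2 : IsSemisimpleModule A (LinearMap.range (LinearMap.inr A M N)) :=
    IsSemisimpleModule.congr (LinearEquiv.ofInjective (LinearMap.inr A M N)
      LinearMap.inr_injective).symm
  have h3 := IsSemisimpleModule.sup h1 h2
  rw [LinearMap.sup_range_inl_inr] at h3
  exact IsSemisimpleModule.congr Submodule.topEquiv.symm

theorem norm_one' {k A : Type*} [Field k] [Ring A] [Algebra k A] [CharZero k] (M N : Type)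
    [AddCommGroup M] [Module k M]
    [Module A M] [IsScalarTower k A M] [AddCommGroup N] [Module k N] [Module A N]
    [IsScalarTower k A N] [FiniteDimensional k M] [FiniteDimensional k N] [IsSemisimpleModule A M]
    [IsSemisimpleModule A N] (h1 : finrank k N < finrank k M)
    (h2 : hd k A M M + hd k A N N = hd k A M N + hd k A N M + 1) :
    ∃ (S : Type) (_ : AddCommGroup S) (_ : Module k S) (_ : Module A S)
      (_ : IsScalarTower k A S), FiniteDimensional k S ∧ IsSimpleModule A S ∧
        Nonempty (M ≃ₗ[A] N × S) := by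
  obtain ⟨S, hS, h⟩ := norm_one (k := k) (A := A) _ M N le_rfl h1 h2
  exact ⟨S, inferInstance, inferInstance, inferInstance, inferInstance, fin_sub k S, hS, h⟩

section cnt
variable {G : Type} [Group G] {X : Type} (H : X → Subgroup G)

/-- the number of fixed points -/
noncomputable def fc (g : G) : ℕ := Nat.card {y : Σ x, G ⧸ H x // g • y.2 = y.2}

theorem fc_eq [Fintype X] [∀ x, Finite (G ⧸ H x)] (g : G) :
    fc H g = ∑ x, Nat.card {q : G ⧸ H x // g • q = q} := by
  unfold fc
  let e : {y : Σ x, G ⧸ H x // g • y.2 = y.2} ≃ Σ x, {q : G ⧸ H x // g • q = q} :=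
    { toFun := fun y => ⟨y.1.1, y.1.2, y.2⟩
      invFun := fun z => ⟨⟨z.1, z.2.1⟩, z.2.2⟩
      left_inv := fun _ => rfl
      right_inv := fun _ => rfl }
  rw [Nat.card_congr e, Nat.card_sigma]

end cnt

section
variable {k : Type} [Field k] [CharZero k] [IsAlgClosed k] {V : Type} [AddCommGroup V] [Module k V]
  [FiniteDimensional k V] {G : Type} [Group G] {r : ℕ} (H : Fin r → Subgroup G)
  (ρ : ∀ j, Representation k (H j) V) {e : Fin r → ℤ}

/-- the indices with multiplicities -/
abbrev Mul (e : Fin r → ℤ) : Type := Σ j, Fin (e j).toNat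

theorem sum_mul (e : Fin r → ℤ) (f : Fin r → ℤ) :
    ∑ x : Mul e, f x.1 = ∑ j, ((e j).toNat : ℤ) * f j := by
  rw [Fintype.sum_sigma]
  refine Finset.sum_congr rfl fun j _ => ?_
  change ∑ _y : Fin (e j).toNat, f j = _
  rw [Finset.sum_const, Finset.card_univ, Fintype.card_fin, nsmul_eq_mul]

theorem sum_diff (e f : Fin r → ℤ) :
    ∑ x : Mul e, f x.1 - ∑ x : Mul (-e), f x.1 = ∑ j, e j * f j := by
  rw [sum_mul, sum_mul, ← Finset.sum_sub_distrib]
  refine Finset.sum_congr rfl fun j _ => ?_
  rw [← sub_mul]
  congr 1
  rw [Pi.neg_apply]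
  exact Int.toNat_sub_toNat_neg (e j)

/-- the sum of the induced representations with multiplicities `max(e_j, 0)` -/
noncomputable abbrev plus (e : Fin r → ℤ) :
    Representation k G ((Σ x : Mul e, G ⧸ H x.1) → V) :=
  tot (fun x : Mul e => H x.1) (fun x => ρ x.1)

theorem schur_one (σ : Representation k G V) (h : Irr σ) : hr σ σ = 1 := by
  have h1 := (irreducible_iff_isSimpleModule_asModule σ).2 (simple_of σ h)
  exact IsIrreducible.finrank_intertwiningMap_self σ

theorem hr_plus [∀ j, Finite (G ⧸ H j)] (e : Fin r → ℤ) {W : Type} [AddCommGroup W] [Module k W]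
    [FiniteDimensional k W] (σ : Representation k G W) :
    (hr σ (plus H ρ e) : ℤ) = ∑ x : Mul e, (hr (σ.comp (H x.1).subtype) (ρ x.1) : ℤ) := by
  rw [hr_tot]
  push_cast
  rfl

/-- the representation on a module over the group algebra -/
noncomputable def repM (k : Type) [Field k] {G : Type} [Group G] (M : Type) [AddCommGroup M]
    [Module k M] [Module (MonoidAlgebra k G) M] [IsScalarTower k (MonoidAlgebra k G) M] :
    Representation k G M where
  toFun g := Algebra.lsmul k k M (MonoidAlgebra.of k G g)
  map_one' := by rw [map_one, map_one]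
  map_mul' g h := by rw [map_mul, map_mul]

/-- transport of a representation -/
noncomputable def tr {k : Type} [Field k] {G : Type} [Group G] {M V : Type} [AddCommGroup M]
    [Module k M] [AddCommGroup V] [Module k V] (τ : Representation k G M) (e : M ≃ₗ[k] V) :
    Representation k G V where
  toFun g := e.toLinearMap ∘ₗ τ g ∘ₗ e.symm.toLinearMap
  map_one' := by ext v; simp
  map_mul' g h := by ext v; simp

theorem tr_equiv {k : Type} [Field k] {G : Type} [Group G] {M V : Type} [AddCommGroup M]
    [Module k M] [Module (MonoidAlgebra k G) M] [IsScalarTower k (MonoidAlgebra k G) M]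
    [AddCommGroup V] [Module k V] (e : M ≃ₗ[k] V) :
    Nonempty ((tr (repM k (G := G) M) e).asModule ≃ₗ[MonoidAlgebra k G] M) := by
  let σ := tr (repM k (G := G) M) e
  refine ⟨{ toFun := fun v => e.symm (σ.asModuleEquiv v)
            invFun := fun m => σ.asModuleEquiv.symm (e m)
            map_add' := fun v w => by rw [map_add, map_add]
            map_smul' := fun a v => ?_
            left_inv := fun v => by simp
            right_inv := fun m => by simp }⟩
  induction a using MonoidAlgebra.induction_linear with
  | zero => simp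
  | add x y hx hy =>
    rw [add_smul, map_add, map_add, hx, hy]
    simp only [RingHom.id_apply]
    rw [add_smul]
  | single g c =>
    have h1 : σ.asModuleEquiv (MonoidAlgebra.single g c • v) = c • σ g (σ.asModuleEquiv v) := by
      simp [Representation.single_smul]
      rfl
    have h2 : MonoidAlgebra.single g c = c • MonoidAlgebra.of k G g := by
      rw [MonoidAlgebra.of_apply, MonoidAlgebra.smul_single, smul_eq_mul, mul_one]
    rw [h1, map_smul, RingHom.id_apply, h2, smul_assoc]
    congr 1
    change e.symm (e (MonoidAlgebra.of k G g • e.symm (σ.asModuleEquiv v))) = _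
    rw [e.symm_apply_apply]

/-- **Patching.** -/
theorem patch (hfin : ∀ j, (H j).FiniteIndex)
    (hrel : ∀ g : G, ∑ j, e j * (Nat.card {q : G ⧸ H j // g • q = q} : ℤ) = 1)
    (he : ∑ j, e j = 1) (hirr : ∀ j, Irr (ρ j)) (T : G → k)
    (hT : ∀ j (g a : G) (h : a⁻¹ * g * a ∈ H j), LinearMap.trace k V (ρ j ⟨_, h⟩) = T g) :
    ∃ σ : Representation k G V, Irr σ ∧ ∀ j, ∃ φ : V ≃ₗ[k] V, ∀ (h : H j) (v : V),
      φ (σ h v) = ρ j h (φ v) := by
  classical
  -- the normal core
  let N : Subgroup G := (⨅ j, H j).normalCore
  have hI : (⨅ j, H j).FiniteIndex := Subgroup.finiteIndex_iInf hfin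
  have hNf : N.FiniteIndex := inferInstance
  have hNle : ∀ j, N ≤ H j := fun j => (Subgroup.normalCore_le _).trans (iInf_le _ j)
  have hq : ∀ j, Finite (G ⧸ H j) := fun j => inferInstance
  have hss : ∀ j, SSR (Set.range (ρ j)) := fun j => ssr_of_irr _ (hirr j)
  have hVn : ∀ j : Fin r, Nontrivial V := fun j => (hirr j).1
  let A := plus H ρ e
  let B := plus H ρ (-e)
  have fA : Fintype (Σ x : Mul e, G ⧸ H x.1) := Fintype.ofFinite _
  have fB : Fintype (Σ x : Mul (-e), G ⧸ H x.1) := Fintype.ofFinite _
  have ssA : SSR (Set.range A) :=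
    ss_tot (fun x : Mul e => H x.1) (fun x => ρ x.1) N (fun x => hNle x.1) (fun x => hss x.1) hNf
  have ssB : SSR (Set.range B) :=
    ss_tot (fun x : Mul (-e) => H x.1) (fun x => ρ x.1) N (fun x => hNle x.1) (fun x => hss x.1) hNf
  have ssAD : ∀ j, SSR (Set.range (A.comp (H j).subtype : Representation k (H j) _)) := fun j =>
    ss_tot_sub (fun x : Mul e => H x.1) (fun x => ρ x.1) N (fun x => hNle x.1) (fun x => hss x.1)
      hNf (H j) (hNle j)
  have ssBD : ∀ j, SSR (Set.range (B.comp (H j).subtype : Representation k (H j) _)) := fun j =>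
    ss_tot_sub (fun x : Mul (-e) => H x.1) (fun x => ρ x.1) N (fun x => hNle x.1) (fun x => hss x.1)
      hNf (H j) (hNle j)
  -- the counts
  have hcnt : ∀ g, (fc (fun x : Mul e => H x.1) g : ℤ) - fc (fun x : Mul (-e) => H x.1) g = 1 := by
    intro g
    rw [fc_eq, fc_eq, ← hrel g, ← sum_diff e (fun j => (Nat.card {q : G ⧸ H j // g • q = q} : ℤ))]
    push_cast
    rfl
  have hcard : (Fintype.card (Mul e) : ℤ) - Fintype.card (Mul (-e)) = 1 := by
    have h1 := sum_diff e (fun _ => (1 : ℤ))
    simp only [Finset.sum_const, Finset.card_univ, nsmul_eq_mul, mul_one] at h1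
    rw [h1, he]
  -- the traces
  have trA : ∀ g, LinearMap.trace k _ (A g) = (fc (fun x : Mul e => H x.1) g : k) * T g := fun g =>
    trace_tot (fun x : Mul e => H x.1) (fun x => ρ x.1) T (fun x => hT x.1) g
  have trB : ∀ g, LinearMap.trace k _ (B g) = (fc (fun x : Mul (-e) => H x.1) g : k) * T g :=
    fun g => trace_tot (fun x : Mul (-e) => H x.1) (fun x => ρ x.1) T (fun x => hT x.1) g
  have trAB : ∀ g, LinearMap.trace k _ (A g) = LinearMap.trace k _ (B g) + T g := by
    intro g
    rw [trA, trB]
    have h1 : (fc (fun x : Mul e => H x.1) g : k) = fc (fun x : Mul (-e) => H x.1) g + 1 := by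
      have h2 := hcnt g
      have h3 : fc (fun x : Mul e => H x.1) g = fc (fun x : Mul (-e) => H x.1) g + 1 := by omega
      rw [h3]
      push_cast
      ring
    rw [h1]
    ring
  have hTj : ∀ j (h : H j), LinearMap.trace k V (ρ j h) = T h := by
    intro j h
    have h1 : (1 : G)⁻¹ * (h : G) * 1 ∈ H j := by simp
    rw [← hT j (h : G) 1 h1]
    congr 2
    exact Subtype.ext (by simp)
  -- the restrictions
  have key : ∀ j, hr (A.comp (H j).subtype) (ρ j) = hr (B.comp (H j).subtype) (ρ j) + 1 := by
    intro j
    let A' : Representation k (H j) _ := A.comp (H j).subtype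
    let B' : Representation k (H j) _ := B.comp (H j).subtype
    have i1 := (ss_iff A').2 (ssAD j)
    have i2 := (ss_iff B').2 (ssBD j)
    have i3 := simple_of (ρ j) (hirr j)
    have i4 : IsSemisimpleModule (MonoidAlgebra k (H j)) (B'.asModule × (ρ j).asModule) := ss_prod
    have f1 : FiniteDimensional k A'.asModule := Module.Finite.equiv A'.asModuleEquiv.symm
    have f2 : FiniteDimensional k B'.asModule := Module.Finite.equiv B'.asModuleEquiv.symm
    have f3 : FiniteDimensional k (ρ j).asModule := Module.Finite.equiv (ρ j).asModuleEquiv.symm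
    obtain ⟨φ⟩ := Pool.Agent.R390.SF.iso_of_trc (k := k) (A := MonoidAlgebra k (H j)) _ A'.asModule
      (B'.asModule × (ρ j).asModule) rfl (by
        intro a
        rw [trc_prod]
        induction a using MonoidAlgebra.induction_linear with
        | zero => unfold trc; simp
        | add x y hx hy =>
          unfold trc at hx hy ⊢
          rw [map_add, map_add, map_add, map_add, map_add, map_add, hx, hy]
          ring
        | single g c =>
          rw [trc_single, trc_single, trc_single, ← mul_add, hTj j g]
          congr 1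
          exact trAB g)
    rw [← hd_eq, ← hd_eq, hd_congr k φ (LinearEquiv.refl _ _), hd_prod_left, hd_eq (ρ j) (ρ j),
      schur_one _ (hirr j)]
  have hAA : (hr A A : ℤ) = hr B A + Fintype.card (Mul e) := by
    rw [hr_plus H ρ e A, hr_plus H ρ e B]
    rw [Finset.sum_congr rfl fun x _ => by rw [key x.1]]
    push_cast
    rw [Finset.sum_add_distrib]
    simp
  have hAB : (hr A B : ℤ) = hr B B + Fintype.card (Mul (-e)) := by
    rw [hr_plus H ρ (-e) A, hr_plus H ρ (-e) B]
    rw [Finset.sum_congr rfl fun x _ => by rw [key x.1]]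
    push_cast
    rw [Finset.sum_add_distrib]
    simp
  have hnorm : hr A A + hr B B = hr A B + hr B A + 1 := by
    zify
    linarith
  -- the irreducible representation
  have iA := (ss_iff A).2 ssA
  have iB := (ss_iff B).2 ssB
  have f1 : FiniteDimensional k A.asModule := Module.Finite.equiv A.asModuleEquiv.symm
  have f2 : FiniteDimensional k B.asModule := Module.Finite.equiv B.asModuleEquiv.symm
  have hr0 : Nonempty (Fin r) := by
    by_contra hcon
    rw [not_nonempty_iff] at hcon
    rw [Fintype.sum_empty] at he
    exact zero_ne_one he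
  obtain ⟨j₀⟩ := hr0
  have hnt := hVn j₀
  have hcA : finrank k A.asModule = (finrank k B.asModule) + finrank k V := by
    have h1 : finrank k A.asModule = fc (fun x : Mul e => H x.1) (1 : G) * finrank k V := by
      rw [A.asModuleEquiv.finrank_eq, Module.finrank_pi_fintype, Finset.sum_const,
        Finset.card_univ, smul_eq_mul]
      congr 1
      unfold fc
      rw [← Nat.card_eq_fintype_card]
      exact Nat.card_congr (Equiv.subtypeUnivEquiv
        (p := fun y : (Σ x : Mul e, G ⧸ H x.1) => (1 : G) • y.2 = y.2)
        fun y => one_smul G y.2).symm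
    have h2 : finrank k B.asModule = fc (fun x : Mul (-e) => H x.1) (1 : G) * finrank k V := by
      rw [B.asModuleEquiv.finrank_eq, Module.finrank_pi_fintype, Finset.sum_const,
        Finset.card_univ, smul_eq_mul]
      congr 1
      unfold fc
      rw [← Nat.card_eq_fintype_card]
      exact Nat.card_congr (Equiv.subtypeUnivEquiv
        (p := fun y : (Σ x : Mul (-e), G ⧸ H x.1) => (1 : G) • y.2 = y.2)
        fun y => one_smul G y.2).symm
    have h3 := hcnt 1
    have h4 : fc (fun x : Mul e => H x.1) (1 : G) = fc (fun x : Mul (-e) => H x.1) 1 + 1 := by omega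
    rw [h1, h2, h4]
    ring
  have hVp : 0 < finrank k V := Module.finrank_pos
  obtain ⟨S, _, _, _, _, f3, hS, ⟨φ⟩⟩ := norm_one' (k := k) (A := MonoidAlgebra k G) A.asModule
    B.asModule (by omega) (by rw [hd_eq, hd_eq, hd_eq, hd_eq]; exact hnorm)
  have hSV : finrank k S = finrank k V := by
    have h1 := (φ.restrictScalars k).finrank_eq
    rw [Module.finrank_prod] at h1
    omega
  let e1 : S ≃ₗ[k] V := LinearEquiv.ofFinrankEq S V hSV
  let σ : Representation k G V := tr (repM k S) e1
  obtain ⟨e2⟩ := tr_equiv (G := G) e1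
  have hσ : Irr σ := irr_of σ (IsSimpleModule.congr e2)
  have trσ : ∀ g, LinearMap.trace k V (σ g) = T g := by
    intro g
    have h1 : trc k A.asModule (MonoidAlgebra.single g (1 : k)) =
        trc k B.asModule (MonoidAlgebra.single g (1 : k)) +
          trc k σ.asModule (MonoidAlgebra.single g (1 : k)) := by
      rw [trc_congr φ, trc_prod, trc_congr e2]
    rw [trc_single, trc_single, trc_single, one_mul, one_mul, one_mul, trAB g] at h1
    exact (add_left_cancel h1).symm
  refine ⟨σ, hσ, fun j => ?_⟩
  have hssj : SSR (Set.range (σ.comp (H j).subtype : Representation k (H j) V)) := by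
    refine rel (H j) _ (σ.comp (H j).subtype) (N.subgroupOf (H j)) inferInstance ?_
    have h1 := ss_sub σ (ssr_of_irr σ hσ) N
    have h2 : (σ.comp (H j).subtype) '' (N.subgroupOf (H j) : Set (H j)) = σ '' (N : Set G) := by
      ext r
      constructor
      · rintro ⟨d, hd, rfl⟩
        exact ⟨d, hd, rfl⟩
      · rintro ⟨n, hn, rfl⟩
        exact ⟨⟨n, hNle j hn⟩, hn, rfl⟩
    rw [h2]
    exact h1
  obtain ⟨ψ⟩ := equiv_of_trace (σ.comp (H j).subtype : Representation k (H j) V) (ρ j) hssj (hss j)
    (fun h => (trσ h).trans (hTj j h).symm)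
  refine ⟨(Representation.asModuleEquiv _).symm.trans ((ψ.restrictScalars k).trans
    (ρ j).asModuleEquiv), fun h v => ?_⟩
  change (ρ j).asModuleEquiv (ψ ((Representation.asModuleEquiv _).symm (σ h v))) =
    ρ j h ((ρ j).asModuleEquiv (ψ ((Representation.asModuleEquiv _).symm v)))
  have h3 := Representation.asModuleEquiv_symm_map_rho
    (σ.comp (H j).subtype : Representation k (H j) V) h v
  have h4 : (Representation.asModuleEquiv (σ.comp (H j).subtype : Representation k (H j) V)).symm
      (σ h v) = MonoidAlgebra.of k (H j) h •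
        (Representation.asModuleEquiv (σ.comp (H j).subtype : Representation k (H j) V)).symm v := h3
  rw [h4, map_smul, Representation.asModuleEquiv_map_smul]
  simp

end

end Pool.Agent.N19.GR
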